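import Mathlib

/-!
Amalgamation chains for a group with generator subgroups indexed by a finite set.
-/

namespace Pool.Agent.P.MP_80f86c_co.Gen

/-- the data of a chain -/
structure Chain (Λ A G : Type) [Group A] [Group G] where
  ι : Λ → A →* G
  H : Finset Λ → Subgroup G
  n : ℕ
  α : ℕ → Finset Λ
  S : ℕ → Set G

namespace Chain

variable {Λ A G : Type} [Group A] [Group G] (c : Chain Λ A G)

/-- the overlap of copies `i` and `i + 1` -/
def R (i : ℕ) (y : G) : Prop := i + 1 < c.n ∧ y ∈ c.S i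

/-- validity of a chain -/
structure Valid : Prop where
  mem : ∀ γ l a, l ∈ γ → c.ι l a ∈ c.H γ
  inv : ∀ i y l a, c.R i y → l ∈ c.α i → l ∈ c.α (i + 1) → y * c.ι l a ∈ c.S i
  disj : ∀ i y, c.R i y → c.R (i + 1) y → False
  thin : ∀ i y y', c.R i y → c.R i y' → (y⁻¹ * y' ∈ c.H (c.α i) ↔ y⁻¹ * y' ∈ c.H (c.α (i + 1)))

open Classical in
/-- normal form of a point -/
noncomputable def nu (i : ℕ) (y : G) : ℕ × G :=
  if i ≠ 0 ∧ c.R (i - 1) y then (i - 1, y) else (i, y)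

open Classical in
/-- the action of the factor `l` -/
noncomputable def act (l : Λ) (a : A) (p : ℕ × G) : ℕ × G :=
  if c.n ≤ p.1 ∨ (p.1 ≠ 0 ∧ c.R (p.1 - 1) p.2) then p
  else if l ∈ c.α p.1 then c.nu p.1 (p.2 * (c.ι l a)⁻¹)
  else if c.R p.1 p.2 ∧ l ∈ c.α (p.1 + 1) then c.nu (p.1 + 1) (p.2 * (c.ι l a)⁻¹) else p

variable {c}

lemma nu_succ {i : ℕ} {y : G} (hy : c.R i y) : c.nu (i + 1) y = (i, y) := by
  simp [nu, hy]

lemma nu_of_not {i : ℕ} {y : G} (hy : ¬ (i ≠ 0 ∧ c.R (i - 1) y)) : c.nu i y = (i, y) := by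
  simp only [nu, hy, if_false]

lemma nu_of_R (hc : c.Valid) {i : ℕ} {y : G} (hy : c.R i y) : c.nu i y = (i, y) := by
  refine nu_of_not ?_
  rintro ⟨hi, h⟩
  obtain ⟨i, rfl⟩ := Nat.exists_eq_succ_of_ne_zero hi
  exact hc.disj i y h hy

lemma nu_fst_le (i : ℕ) (y : G) : (c.nu i y).1 ≤ i := by
  unfold nu; split_ifs <;> simp

lemma le_nu_fst (i : ℕ) (y : G) : i - 1 ≤ (c.nu i y).1 := by
  unfold nu; split_ifs <;> simp

lemma nu_eq_nu {i i' : ℕ} {y y' : G} (h : c.nu i y = c.nu i' y') :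
    y' = y ∧ (i' = i ∨ (i' = i + 1 ∧ c.R i y) ∨ (i = i' + 1 ∧ c.R i' y)) := by
  unfold nu at h
  split_ifs at h with h1 h2 h2 <;> obtain ⟨ha, hb⟩ := Prod.mk.inj h <;> subst hb
  · exact ⟨rfl, Or.inl (by omega)⟩
  · exact ⟨rfl, Or.inr (Or.inr ⟨by omega, ha ▸ h1.2⟩)⟩
  · exact ⟨rfl, Or.inr (Or.inl ⟨by omega, ha ▸ h2.2⟩)⟩
  · exact ⟨rfl, Or.inl ha.symm⟩

lemma nu_normal (hc : c.Valid) {i i' : ℕ} {y y' : G} (h : c.nu i y = (i' + 1, y')) :
    ¬ c.R i' y' := by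
  intro hR
  unfold nu at h
  split_ifs at h with h1 <;> obtain ⟨ha, hb⟩ := Prod.mk.inj h <;> subst hb
  · exact hc.disj i' y hR (ha ▸ h1.2)
  · exact h1 ⟨by omega, by rw [ha]; exact hR⟩

lemma act_nu (hc : c.Valid) {l : Λ} {i : ℕ} (hi : i < c.n) (hl : l ∈ c.α i) (a : A) (y : G) :
    c.act l a (c.nu i y) = c.nu i (y * (c.ι l a)⁻¹) := by
  by_cases hg : i ≠ 0 ∧ c.R (i - 1) y
  · obtain ⟨hi0, hR⟩ := hg
    obtain ⟨i, rfl⟩ := Nat.exists_eq_succ_of_ne_zero hi0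
    have hR : c.R i y := hR
    rw [nu_succ hR]
    have hng : ¬ (c.n ≤ i ∨ (i ≠ 0 ∧ c.R (i - 1) y)) := by
      rintro (h | ⟨h0, h⟩)
      · omega
      · obtain ⟨i, rfl⟩ := Nat.exists_eq_succ_of_ne_zero h0
        exact hc.disj i y h hR
    unfold act
    simp only [hng, if_false]
    by_cases hl' : l ∈ c.α i
    · simp only [hl', if_true]
      have hR' : c.R i (y * (c.ι l a)⁻¹) := by
        rw [← map_inv]; exact ⟨hR.1, hc.inv i y l _ hR hl' hl⟩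
      rw [nu_of_R hc hR', nu_succ hR']
    · have hl2 : l ∈ c.α (i + 1) := hl
      simp only [hl', if_false, hR, hl2, and_self, if_true]
  · rw [nu_of_not hg]
    have hng : ¬ (c.n ≤ i ∨ (i ≠ 0 ∧ c.R (i - 1) y)) := by
      rintro (h | h)
      · omega
      · exact hg h
    unfold act
    simp only [hng, if_false, hl, if_true]

lemma active_or_fixed (l : Λ) (p : ℕ × G) :
    (∃ i y, i < c.n ∧ l ∈ c.α i ∧ p = c.nu i y) ∨ (∀ a, c.act l a p = p) := by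
  obtain ⟨i, y⟩ := p
  by_cases hg : c.n ≤ i ∨ (i ≠ 0 ∧ c.R (i - 1) y)
  · right
    intro a
    unfold act
    simp only [hg, if_true]
  · by_cases hl : l ∈ c.α i
    · left
      exact ⟨i, y, by omega, hl, (nu_of_not (fun h => hg (Or.inr h))).symm⟩
    · by_cases hR : c.R i y ∧ l ∈ c.α (i + 1)
      · left
        exact ⟨i + 1, y, hR.1.1, hR.2, (nu_succ hR.1).symm⟩
      · right
        intro a
        unfold act
        simp only [hg, if_false, hl, hR]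

lemma act_one (hc : c.Valid) (l : Λ) (p : ℕ × G) : c.act l 1 p = p := by
  rcases active_or_fixed (c := c) l p with ⟨i, y, hi, hl, rfl⟩ | h
  · rw [act_nu hc hi hl]; simp
  · exact h 1

lemma act_mul (hc : c.Valid) (l : Λ) (a b : A) (p : ℕ × G) :
    c.act l (a * b) p = c.act l a (c.act l b p) := by
  rcases active_or_fixed (c := c) l p with ⟨i, y, hi, hl, rfl⟩ | h
  · rw [act_nu hc hi hl, act_nu hc hi hl, act_nu hc hi hl, map_mul, mul_inv_rev, mul_assoc]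
  · rw [h, h, h]

/-- the action of the factor `l` as a homomorphism to permutations -/
noncomputable def actHom (hc : c.Valid) (l : Λ) : A →* Equiv.Perm (ℕ × G) where
  toFun a := ⟨c.act l a, c.act l a⁻¹,
    fun p => by rw [← act_mul hc, inv_mul_cancel, act_one hc],
    fun p => by rw [← act_mul hc, mul_inv_cancel, act_one hc]⟩
  map_one' := Equiv.ext fun p => act_one hc l p
  map_mul' a b := Equiv.ext fun p => act_mul hc l a b p

@[simp] lemma actHom_apply (hc : c.Valid) (l : Λ) (a : A) (p : ℕ × G) :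
    actHom hc l a p = c.act l a p := rfl

/-- cosets reached going up -/
inductive Up (c : Chain Λ A G) (i₀ : ℕ) (y₀ : G) : ℕ → G → Prop
  | base {y : G} : y₀⁻¹ * y ∈ c.H (c.α i₀) → Up c i₀ y₀ i₀ y
  | step {i : ℕ} {z y : G} : Up c i₀ y₀ i z → c.R i z → z⁻¹ * y ∈ c.H (c.α (i + 1)) →
      Up c i₀ y₀ (i + 1) y

/-- cosets reached going down -/
inductive Dn (c : Chain Λ A G) (i₀ : ℕ) (y₀ : G) : ℕ → G → Prop
  | base {y : G} : y₀⁻¹ * y ∈ c.H (c.α i₀) → Dn c i₀ y₀ i₀ y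
  | step {i : ℕ} {z y : G} : Dn c i₀ y₀ (i + 1) z → c.R i z → z⁻¹ * y ∈ c.H (c.α i) →
      Dn c i₀ y₀ i y

variable {i₀ : ℕ} {y₀ : G}

lemma Up.le {i : ℕ} {y : G} (h : Up c i₀ y₀ i y) : i₀ ≤ i := by
  induction h with
  | base _ => exact le_rfl
  | step _ _ _ ih => omega

lemma Dn.le {i : ℕ} {y : G} (h : Dn c i₀ y₀ i y) : i ≤ i₀ := by
  induction h with
  | base _ => exact le_rfl
  | step _ _ _ ih => omega

lemma Up.lt {i : ℕ} {y : G} (h : Up c i₀ y₀ i y) (h0 : i₀ < c.n) : i < c.n := by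
  induction h with
  | base _ => exact h0
  | step _ h2 _ _ => exact h2.1

lemma Up.mul {i : ℕ} {y y' : G} (h : Up c i₀ y₀ i y) (hy : y⁻¹ * y' ∈ c.H (c.α i)) :
    Up c i₀ y₀ i y' := by
  cases h with
  | base h1 => exact .base (by simpa [mul_assoc] using mul_mem h1 hy)
  | step h1 h2 h3 => exact .step h1 h2 (by simpa [mul_assoc] using mul_mem h3 hy)

lemma Dn.mul {i : ℕ} {y y' : G} (h : Dn c i₀ y₀ i y) (hy : y⁻¹ * y' ∈ c.H (c.α i)) :
    Dn c i₀ y₀ i y' := by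
  cases h with
  | base h1 => exact .base (by simpa [mul_assoc] using mul_mem h1 hy)
  | step h1 h2 h3 => exact .step h1 h2 (by simpa [mul_assoc] using mul_mem h3 hy)

lemma Up.inv {i : ℕ} {y : G} (h : Up c i₀ y₀ i y) : (i = i₀ ∧ y₀⁻¹ * y ∈ c.H (c.α i₀)) ∨
    ∃ i' z, i = i' + 1 ∧ Up c i₀ y₀ i' z ∧ c.R i' z ∧ z⁻¹ * y ∈ c.H (c.α (i' + 1)) := by
  cases h with
  | base h1 => exact Or.inl ⟨rfl, h1⟩
  | step h1 h2 h3 => exact Or.inr ⟨_, _, rfl, h1, h2, h3⟩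

lemma Dn.inv {i : ℕ} {y : G} (h : Dn c i₀ y₀ i y) : (i = i₀ ∧ y₀⁻¹ * y ∈ c.H (c.α i₀)) ∨
    ∃ z, Dn c i₀ y₀ (i + 1) z ∧ c.R i z ∧ z⁻¹ * y ∈ c.H (c.α i) := by
  cases h with
  | base h1 => exact Or.inl ⟨rfl, h1⟩
  | step h1 h2 h3 => exact Or.inr ⟨_, h1, h2, h3⟩

lemma tri {K : Subgroup G} {z z' y y' : G} (h1 : z⁻¹ * y ∈ K) (h2 : z'⁻¹ * y' ∈ K)
    (h3 : z⁻¹ * z' ∈ K) : y⁻¹ * y' ∈ K := by
  simpa [mul_assoc] using mul_mem (inv_mem h1) (mul_mem h3 h2)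

lemma Up.unique (hc : c.Valid) {i : ℕ} {y : G} (h : Up c i₀ y₀ i y) :
    ∀ y', Up c i₀ y₀ i y' → y⁻¹ * y' ∈ c.H (c.α i) := by
  induction h with
  | base h1 =>
    intro y' h'
    rcases h'.inv with ⟨-, h2⟩ | ⟨i', z, hi, hz, -⟩
    · exact tri h1 h2 (by simp)
    · have := hz.le; omega
  | step h1 h2 h3 ih =>
    intro y' h'
    rcases h'.inv with ⟨hi, -⟩ | ⟨i', z, hi, hz, hR, h4⟩
    · have := h1.le; omega
    · obtain rfl := Nat.succ.inj hi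
      exact tri h3 h4 ((hc.thin _ _ _ h2 hR).1 (ih z hz))

lemma Dn.unique (hc : c.Valid) {i : ℕ} {y : G} (h : Dn c i₀ y₀ i y) :
    ∀ y', Dn c i₀ y₀ i y' → y⁻¹ * y' ∈ c.H (c.α i) := by
  induction h with
  | base h1 =>
    intro y' h'
    rcases h'.inv with ⟨-, h2⟩ | ⟨z, hz, -⟩
    · exact tri h1 h2 (by simp)
    · have := hz.le; omega
  | step h1 h2 h3 ih =>
    intro y' h'
    rcases h'.inv with ⟨hi, -⟩ | ⟨z, hz, hR, h4⟩
    · have := h1.le; omega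
    · exact tri h3 h4 ((hc.thin _ _ _ h2 hR).2 (ih z hz))

lemma up_dn_zero {y : G} : Up c i₀ y₀ i₀ y ↔ Dn c i₀ y₀ i₀ y := by
  constructor
  · intro h
    rcases h.inv with ⟨-, h2⟩ | ⟨i', z, hi, hz, -⟩
    · exact .base h2
    · have := hz.le; omega
  · intro h
    rcases h.inv with ⟨-, h2⟩ | ⟨z, hz, -⟩
    · exact .base h2
    · have := hz.le; omega

/-- every point lies in a small invariant set -/
theorem exists_small (hc : c.Valid) {M : ℕ}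
    (hM : ∀ i, i < c.n → ∃ f : Fin M → G, (c.H (c.α i) : Set G) ⊆ Set.range f) (p : ℕ × G) :
    ∃ T : Set (ℕ × G), T.Finite ∧ T.ncard ≤ c.n * M + 1 ∧ p ∈ T ∧
      ∀ l a, ∀ q ∈ T, c.act l a q ∈ T := by
  classical
  by_cases hact : ∃ i y, i < c.n ∧ p = c.nu i y
  swap
  · refine ⟨{p}, Set.finite_singleton p, by simp, rfl, fun l a q hq => ?_⟩
    rw [Set.mem_singleton_iff.1 hq]
    rcases active_or_fixed (c := c) l p with ⟨i, y, hi, -, h⟩ | h
    · exact absurd ⟨i, y, hi, h⟩ hact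
    · exact h a
  obtain ⟨i₀, y₀, hi₀, hp⟩ := hact
  let O : ℕ → G → Prop := fun i y => Up c i₀ y₀ i y ∨ Dn c i₀ y₀ i y
  have hlt : ∀ i y, O i y → i < c.n := fun i y h =>
    h.elim (fun h => h.lt hi₀) fun h => lt_of_le_of_lt h.le hi₀
  have huniq : ∀ i y y', O i y → O i y' → y⁻¹ * y' ∈ c.H (c.α i) := by
    rintro i y y' (h | h) (h' | h')
    · exact h.unique hc _ h'
    · obtain rfl : i = i₀ := le_antisymm h'.le h.le
      exact h.unique hc _ (up_dn_zero.2 h')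
    · obtain rfl : i = i₀ := le_antisymm h.le h'.le
      exact h.unique hc _ (up_dn_zero.1 h')
    · exact h.unique hc _ h'
  have hup : ∀ i y, O i y → c.R i y → O (i + 1) y := by
    rintro i y (h | h) hR
    · exact Or.inl (.step h hR (by simp))
    · rcases h.inv with ⟨rfl, h2⟩ | ⟨z, hz, hR', h4⟩
      · exact Or.inl (.step (.base h2) hR (by simp))
      · exact Or.inr (hz.mul ((hc.thin _ _ _ hR' hR).1 h4))
  have hdn : ∀ i y, O (i + 1) y → c.R i y → O i y := by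
    rintro i y (h | h) hR
    · rcases h.inv with ⟨rfl, h2⟩ | ⟨i', z, hi, hz, hR', h4⟩
      · exact Or.inr (.step (.base h2) hR (by simp))
      · obtain rfl := Nat.succ.inj hi
        exact Or.inl (hz.mul ((hc.thin _ _ _ hR' hR).2 h4))
    · exact Or.inr (.step h hR (by simp))
  have hchoice : ∀ i, ∃ z, ∀ y, O i y → z⁻¹ * y ∈ c.H (c.α i) := by
    intro i
    by_cases h : ∃ z, O i z
    · obtain ⟨z, hz⟩ := h
      exact ⟨z, fun y hy => huniq _ _ _ hz hy⟩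
    · exact ⟨1, fun y hy => absurd ⟨y, hy⟩ h⟩
  choose z hz using hchoice
  choose f hf using hM
  let F : Fin c.n × Fin M → ℕ × G := fun x => c.nu x.1 (z x.1 * f x.1 x.1.2 x.2)
  have hsub : {q | ∃ i y, O i y ∧ q = c.nu i y} ⊆ Set.range F := by
    rintro q ⟨i, y, hy, rfl⟩
    obtain ⟨a, ha⟩ := hf i (hlt _ _ hy) (hz i y hy)
    exact ⟨(⟨i, hlt _ _ hy⟩, a), by simp [F, ha]⟩
  have hfin : (Set.range F).Finite := Set.finite_range F
  refine ⟨_, hfin.subset hsub, ?_, ⟨i₀, y₀, Or.inl (.base (by simp)), hp⟩, ?_⟩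
  · refine (Set.ncard_le_ncard hsub hfin).trans ?_
    rw [← Set.image_univ]
    refine (Set.ncard_image_le (Set.toFinite _)).trans ?_
    simp [Set.ncard_univ]
  · rintro l a q ⟨i, y, hy, hq⟩
    rcases active_or_fixed (c := c) l q with ⟨i', y', hi', hl', hq'⟩ | h
    swap
    · rw [h]; exact ⟨i, y, hy, hq⟩
    obtain ⟨rfl, hcase⟩ := nu_eq_nu (hq.symm.trans hq')
    have hrel' : O i' y' := by
      rcases hcase with rfl | ⟨rfl, hR⟩ | ⟨rfl, hR⟩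
      · exact hy
      · exact hup _ _ hy hR
      · exact hdn _ _ hy hR
    have hm : y'⁻¹ * (y' * (c.ι l a)⁻¹) ∈ c.H (c.α i') := by
      rw [inv_mul_cancel_left]; exact inv_mem (hc.mem _ _ _ hl')
    refine ⟨i', y' * (c.ι l a)⁻¹, ?_, by rw [hq', act_nu hc hi' hl']⟩
    exact hrel'.elim (fun h => Or.inl (h.mul hm)) fun h => Or.inr (h.mul hm)

variable [DecidableEq Λ]

/-- the subchain for the generator set `β` -/
def sub (c : Chain Λ A G) (β : Finset Λ) : Chain Λ A G where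
  ι := c.ι
  H := c.H
  n := c.n
  α i := if β ⊆ c.α i then ∅ else c.α i ∩ β
  S i := {y | y ∈ c.S i ∧ ¬ β ⊆ c.α i ∧ ¬ β ⊆ c.α (i + 1)}

lemma sub_R {β : Finset Λ} {i : ℕ} {y : G} :
    (c.sub β).R i y ↔ c.R i y ∧ ¬ β ⊆ c.α i ∧ ¬ β ⊆ c.α (i + 1) := by
  simp only [R, sub, Set.mem_ofPred_eq, and_assoc]

lemma sub_valid (hc : c.Valid) (hH : ∀ γ δ x, x ∈ c.H (γ ∩ δ) ↔ x ∈ c.H γ ∧ x ∈ c.H δ)
    (β : Finset Λ) : (c.sub β).Valid where
  mem := hc.mem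
  inv i y l a hR h1 h2 := by
    obtain ⟨h3, h4, h5⟩ := sub_R.1 hR
    simp only [sub, h4, h5, if_false, Finset.mem_inter] at h1 h2
    exact ⟨hc.inv i y l a h3 h1.1 h2.1, h4, h5⟩
  disj i y h1 h2 := hc.disj i y (sub_R.1 h1).1 (sub_R.1 h2).1
  thin i y y' h1 h2 := by
    obtain ⟨h3, h4, h5⟩ := sub_R.1 h1
    simp only [sub, h4, h5, if_false, hH, hc.thin i y y' h3 (sub_R.1 h2).1]

/-- active points lying in no copy that contains `β` -/
def T (c : Chain Λ A G) (β : Finset Λ) : Set (ℕ × G) :=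
  {p | (∃ i y, i < c.n ∧ p = c.nu i y) ∧ ¬ ∃ i y, i < c.n ∧ β ⊆ c.α i ∧ p = c.nu i y}

lemma sub_nu (hc : c.Valid) {β : Finset Λ} {i : ℕ} {y : G} (hi : i < c.n)
    (h : c.nu i y ∈ c.T β) : (c.sub β).nu i y = c.nu i y := by
  by_cases hg : i ≠ 0 ∧ c.R (i - 1) y
  · obtain ⟨hi0, hR⟩ := hg
    obtain ⟨i, rfl⟩ := Nat.exists_eq_succ_of_ne_zero hi0
    have hR : c.R i y := hR
    rw [nu_succ hR, nu_succ (sub_R.2 ⟨hR, fun h1 => h.2 ⟨i, y, by omega, h1, ?_⟩,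
      fun h1 => h.2 ⟨i + 1, y, hi, h1, rfl⟩⟩)]
    rw [nu_succ hR, nu_of_R hc hR]
  · rw [nu_of_not hg, nu_of_not fun h1 => hg ⟨h1.1, (sub_R.1 h1.2).1⟩]

lemma sub_act (hc : c.Valid) {β : Finset Λ} (hs : (c.sub β).Valid) {l : Λ} (hl : l ∈ β) (a : A) {p : ℕ × G}
    (hp : p ∈ c.T β) : c.act l a p ∈ c.T β ∧ (c.sub β).act l a p = c.act l a p := by
  by_cases h : ∃ i y, i < c.n ∧ l ∈ c.α i ∧ p = c.nu i y
  · obtain ⟨i, y, hi, hli, rfl⟩ := h
    have h1 : c.act l a (c.nu i y) ∈ c.T β := by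
      refine ⟨⟨i, _, hi, act_nu hc hi hli a y⟩, ?_⟩
      rintro ⟨i', y', hi', hβ, h⟩
      refine hp.2 ⟨i', y' * (c.ι l a⁻¹)⁻¹, hi', hβ, ?_⟩
      rw [← act_nu hc hi' (hβ hl), ← h, ← act_mul hc, inv_mul_cancel, act_one hc]
    refine ⟨h1, ?_⟩
    have h2 : ¬ β ⊆ c.α i := fun h => hp.2 ⟨i, y, hi, h, rfl⟩
    have h3 : l ∈ (c.sub β).α i := by simp [sub, h2, hli, hl]
    rw [act_nu hc hi hli] at h1 ⊢
    rw [← sub_nu hc hi hp, act_nu hs hi h3]
    exact sub_nu hc hi h1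
  · have h1 := (active_or_fixed (c := c) l p).resolve_left h a
    rw [h1]
    refine ⟨hp, (active_or_fixed (c := c.sub β) l p).resolve_left ?_ a⟩
    rintro ⟨i, y, hi, hli, hp'⟩
    have h2 : l ∈ c.α i := by
      simp only [sub] at hli
      split_ifs at hli
      · simp at hli
      · exact (Finset.mem_inter.1 hli).1
    refine h ⟨i, y, hi, h2, ?_⟩
    by_cases hg : i ≠ 0 ∧ (c.sub β).R (i - 1) y
    · obtain ⟨hi0, hR⟩ := hg
      obtain ⟨i, rfl⟩ := Nat.exists_eq_succ_of_ne_zero hi0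
      have hR : (c.sub β).R i y := hR
      rw [hp', nu_succ hR, nu_succ (sub_R.1 hR).1]
    · rw [nu_of_not hg] at hp'
      rw [hp', nu_of_not]
      rintro ⟨hi0, hR⟩
      obtain ⟨i, rfl⟩ := Nat.exists_eq_succ_of_ne_zero hi0
      obtain ⟨i₁, y₁, -, h4⟩ := hp.1
      exact nu_normal hc (h4.symm.trans hp') hR

end Chain

end Pool.Agent.P.MP_80f86c_co.Gen
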