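import Pool.Agent.P.MP_80f86c_co.Defs

/-!
Trees of `s`-cliques glued along prescribed sets of positions.
-/

namespace Pool.Agent.P.MP_80f86c_co

/-- An `𝓜`-tree is a list of ordered `s`-tuples of distinct vertices (natural numbers). It starts
with one tuple; each further tuple `d` is obtained from an earlier tuple `c` and a set `M ∈ 𝓜` by
keeping the vertices in the positions of `M` and taking new vertices in all other positions. -/
inductive IsTree {s : ℕ} (𝓜 : Set (Finset (Fin s))) : List (Fin s → ℕ) → Prop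
  | base (c : Fin s → ℕ) : Function.Injective c → IsTree 𝓜 [c]
  | glue (L : List (Fin s → ℕ)) (c d : Fin s → ℕ) (M : Finset (Fin s)) :
      IsTree 𝓜 L → c ∈ L → M ∈ 𝓜 → Function.Injective d → (∀ i ∈ M, d i = c i) →
      (∀ i, i ∉ M → ∀ e ∈ L, ∀ j, d i ≠ e j) → IsTree 𝓜 (d :: L)

/-- `F` is a subgraph of the graph of some `𝓜`-tree (each tuple spans a clique): there is an
injective map of the vertices of `F` to vertices of the tree such that the two ends of every edge
go into a common tuple. -/
def InTree {s : ℕ} (𝓜 : Set (Finset (Fin s))) {W : Type} (F : SimpleGraph W) : Prop :=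
  ∃ (L : List (Fin s → ℕ)) (f : W → ℕ), IsTree 𝓜 L ∧ Function.Injective f ∧
    (∀ w, ∃ c ∈ L, ∃ i, c i = f w) ∧
    ∀ v w, F.Adj v w → ∃ c ∈ L, (∃ i, c i = f v) ∧ ∃ j, c j = f w

/-- `F` is a subgraph of an `{M}`-tree (a sunflower of `s`-cliques with kernel `M`) for every
proper subset `M` of the positions. -/
def InSunflowers (s : ℕ) {W : Type} (F : SimpleGraph W) : Prop :=
  ∀ M : Finset (Fin s), M ≠ Finset.univ → InTree {M} F

/-- `F` is a subgraph of an `𝓜`-tree for every family `𝓜` of proper subsets of the positions that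
covers all pairs of positions. -/
def InPairTrees (s : ℕ) {W : Type} (F : SimpleGraph W) : Prop :=
  ∀ 𝓜 : Set (Finset (Fin s)), Finset.univ ∉ 𝓜 → (∀ k l, ∃ M ∈ 𝓜, k ∈ M ∧ l ∈ M) → InTree 𝓜 F

end Pool.Agent.P.MP_80f86c_co
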