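import Pool.Agent.P.MP_80f86c_co.Basic
import Pool.Agent.P.MP_80f86c_co.Gen.Defs

/-!
Upper bounds by cleaning families of ordered cliques.
-/

namespace Pool.Agent.P.MP_80f86c_co.Gen

open SimpleGraph

variable {s : ℕ} {V : Type}

lemma extend_old {ψ : ℕ → V} {L : List (Fin s → ℕ)} {c d : Fin s → ℕ} {M : Finset (Fin s)}
    {Y : Fin s → V} (hd : Function.Injective d) (h1 : ∀ i ∈ M, d i = c i)
    (h2 : ∀ i, i ∉ M → ∀ e ∈ L, ∀ j, d i ≠ e j) (hY : ∀ i ∈ M, Y i = ψ (c i)) :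
    ∀ e ∈ L, ∀ j, Function.extend d Y ψ (e j) = ψ (e j) := by
  intro e he j
  by_cases h : ∃ i, d i = e j
  · obtain ⟨i, hi⟩ := h
    have hM : i ∈ M := by_contra fun h => h2 i h e he j hi
    rw [← hi, hd.extend_apply, hY i hM, h1 i hM]
  · exact Function.extend_apply' _ _ _ h

/-- every kernel class is hit by a small set -/
def Bad (H : Finset (Fin s → V)) (t : ℕ) (M : Finset (Fin s)) : Prop :=
  ∀ X ∈ H, ∃ U : Finset V, U.card ≤ t ∧
    ∀ Y ∈ H, (∀ i ∈ M, Y i = X i) → ∃ i, i ∉ M ∧ Y i ∈ U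

/-- closed under extension along all members of `𝓜` -/
def Clo (H : Finset (Fin s → V)) (t : ℕ) (𝓜 : Set (Finset (Fin s))) : Prop :=
  ∀ X ∈ H, ∀ M ∈ 𝓜, ∀ U : Finset V, U.card ≤ t →
    ∃ Y ∈ H, (∀ i ∈ M, Y i = X i) ∧ ∀ i, i ∉ M → Y i ∉ U

lemma Bad.mono {H H' : Finset (Fin s → V)} {t : ℕ} {M : Finset (Fin s)} (h : Bad H t M)
    (hs : H' ⊆ H) : Bad H' t M := fun X hX =>
  let ⟨U, h1, h2⟩ := h X (hs hX)
  ⟨U, h1, fun Y hY => h2 Y (hs hY)⟩

theorem embed_tree (hs : 0 < s) {H : Finset (Fin s → V)} {t : ℕ} {𝓜 : Set (Finset (Fin s))}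
    (hH : Clo H t 𝓜) (hne : H.Nonempty) (hinj : ∀ X ∈ H, Function.Injective X)
    {L : List (Fin s → ℕ)} (hL : IsTree 𝓜 L) (ht : L.length * s ≤ t) :
    ∃ ψ : ℕ → V, (∀ c ∈ L, ψ ∘ c ∈ H) ∧
      ∀ c ∈ L, ∀ e ∈ L, ∀ i j, ψ (c i) = ψ (e j) → c i = e j := by
  classical
  induction hL with
  | base c hc =>
    obtain ⟨X, hX⟩ := hne
    refine ⟨Function.extend c X fun _ => X ⟨0, hs⟩, ?_, ?_⟩
    · intro e he
      rw [List.mem_singleton.1 he, Function.extend_comp hc]
      exact hX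
    · intro e he e' he' i j h
      rw [List.mem_singleton.1 he, List.mem_singleton.1 he'] at h ⊢
      rw [hc.extend_apply, hc.extend_apply] at h
      rw [hinj X hX h]
  | glue L c d M hL hc hM hd h1 h2 ih =>
    rw [List.length_cons] at ht
    obtain ⟨ψ, p1, p2⟩ := ih (by nlinarith)
    obtain ⟨Y, hY, q1, q2⟩ := hH _ (p1 c hc) M hM
      (L.toFinset.biUnion fun e => Finset.univ.image (ψ ∘ e)) (by
        refine (Finset.card_biUnion_le_card_mul _ _ s fun e _ => ?_).trans ?_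
        · exact Finset.card_image_le.trans (by simp)
        · have := List.toFinset_card_le L
          nlinarith)
    have hold := extend_old (ψ := ψ) hd h1 h2 q1
    have hcross : ∀ e ∈ L, ∀ i j, Y i = ψ (e j) → d i = e j := by
      intro e he i j h
      by_cases hi : i ∈ M
      · rw [h1 i hi]
        exact p2 c hc e he i j ((q1 i hi).symm.trans h)
      · exact absurd (Finset.mem_biUnion.2 ⟨e, List.mem_toFinset.2 he,
          Finset.mem_image.2 ⟨j, Finset.mem_univ _, h.symm⟩⟩) (q2 i hi)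
    refine ⟨Function.extend d Y ψ, ?_, ?_⟩
    · intro e he
      rcases List.mem_cons.1 he with rfl | he
      · rw [Function.extend_comp hd]; exact hY
      · rw [show Function.extend d Y ψ ∘ e = ψ ∘ e from funext (hold e he)]
        exact p1 e he
    · intro e he e' he' i j h
      rcases List.mem_cons.1 he with rfl | a <;> rcases List.mem_cons.1 he' with rfl | b
      · rw [hd.extend_apply, hd.extend_apply] at h
        rw [hinj Y hY h]
      · rw [hd.extend_apply, hold _ b] at h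
        exact hcross _ b _ _ h
      · rw [hd.extend_apply, hold _ a] at h
        exact (hcross _ a _ _ h.symm).symm
      · rw [hold _ a, hold _ b] at h
        exact p2 _ a _ b _ _ h

/-- a family of ordered cliques -/
def Cl (G : SimpleGraph V) (H : Finset (Fin s → V)) : Prop :=
  ∀ X ∈ H, ∀ i j, i ≠ j → G.Adj (X i) (X j)

lemma Cl.inj {G : SimpleGraph V} {H : Finset (Fin s → V)} (h : Cl G H) :
    ∀ X ∈ H, Function.Injective X := fun X hX i j hij =>
  by_contra fun hne => (h X hX i j hne).ne hij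

theorem exists_bound (hs : 0 < s) {W : Type} (F : SimpleGraph W) :
    ∃ t : ℕ, ∀ 𝓜 : Set (Finset (Fin s)), InTree 𝓜 F → ∀ (V : Type) (G : SimpleGraph V),
      F.Free G → ∀ H : Finset (Fin s → V), Cl G H → H.Nonempty → ¬ Clo H t 𝓜 := by
  have : ∀ 𝓜 : Set (Finset (Fin s)), ∃ t₀ : ℕ, ∀ t, t₀ ≤ t → InTree 𝓜 F →
      ∀ (V : Type) (G : SimpleGraph V),
      F.Free G → ∀ H : Finset (Fin s → V), Cl G H → H.Nonempty → ¬ Clo H t 𝓜 := by
    intro 𝓜
    by_cases h : InTree 𝓜 F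
    swap
    · exact ⟨0, fun _ _ h' => absurd h' h⟩
    obtain ⟨L, f, hL, hf, h1, h2⟩ := h
    refine ⟨L.length * s, fun t ht _ V G hG H hH hne hC => hG ?_⟩
    obtain ⟨ψ, p1, p2⟩ := embed_tree hs hC hne hH.inj hL ht
    refine ⟨⟨⟨ψ ∘ f, fun {v w} hvw => ?_⟩, fun v w hvw => hf ?_⟩⟩
    · obtain ⟨c, hc, ⟨i, hi⟩, j, hj⟩ := h2 v w hvw
      have := hH _ (p1 c hc) i j fun h => hvw.ne (hf (by rw [← hi, ← hj, h]))
      simpa only [Function.comp_apply, hi, hj] using this
    · obtain ⟨c, hc, i, hi⟩ := h1 v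
      obtain ⟨e, he, j, hj⟩ := h1 w
      rw [← hi, ← hj]
      refine p2 c hc e he i j ?_
      rw [hi, hj]
      exact hvw
  choose t ht using this
  obtain ⟨T, hT⟩ := (Set.finite_range t).bddAbove
  exact ⟨T, fun 𝓜 => ht 𝓜 T (hT ⟨𝓜, rfl⟩)⟩

theorem cleaning {t : ℕ} {𝓜 : Set (Finset (Fin s))} (H : Finset (Fin s → V))
    (h : ∀ H' ⊆ H, H'.Nonempty → ¬ Clo H' t 𝓜) :
    ∃ f : (Fin s → V) → Finset (Fin s), (∀ X ∈ H, f X ∈ 𝓜) ∧
      ∀ X ∈ H, ∃ U : Finset V, U.card ≤ t ∧ ∀ Y ∈ H, f Y = f X → (∀ i ∈ f X, Y i = X i) →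
        ∃ i, i ∉ f X ∧ Y i ∈ U := by
  classical
  induction H using Finset.strongInduction with
  | H H ih =>
  rcases H.eq_empty_or_nonempty with rfl | hne
  · exact ⟨fun _ => ∅, by simp, by simp⟩
  have h1 := h H subset_rfl hne
  simp only [Clo, not_forall, not_exists, not_and, not_not] at h1
  obtain ⟨X, hX, M, hM, U, hU, h1⟩ := h1
  obtain ⟨f, f1, f2⟩ := ih (H.erase X) (Finset.erase_ssubset hX)
    fun H' hH' => h H' (hH'.trans (Finset.erase_subset _ _))
  refine ⟨Function.update f X M, fun Y hY => ?_, fun Y hY => ?_⟩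
  · by_cases hYX : Y = X
    · rw [hYX, Function.update_self]; exact hM
    · rw [Function.update_of_ne hYX]; exact f1 Y (Finset.mem_erase.2 ⟨hYX, hY⟩)
  by_cases hc : Function.update f X M Y = M ∧ ∀ i ∈ M, Y i = X i
  · refine ⟨U, hU, fun Z hZ _ h3 => ?_⟩
    rw [hc.1] at h3 ⊢
    obtain ⟨i, hi, hi'⟩ := h1 Z hZ fun i hi => (h3 i hi).trans (hc.2 i hi)
    exact ⟨i, hi, hi'⟩
  · have hYX : Y ≠ X := fun h => hc (by rw [h, Function.update_self]; exact ⟨rfl, fun _ _ => rfl⟩)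
    obtain ⟨U', hU', h2⟩ := f2 Y (Finset.mem_erase.2 ⟨hYX, hY⟩)
    refine ⟨U', hU', fun Z hZ h3 h4 => ?_⟩
    have hZX : Z ≠ X := by
      rintro rfl
      rw [Function.update_self] at h3
      exact hc ⟨h3.symm, fun i hi => (h4 i (h3 ▸ hi)).symm⟩
    rw [Function.update_of_ne hYX] at h3 h4 ⊢
    rw [Function.update_of_ne hZX] at h3
    exact h2 Z (Finset.mem_erase.2 ⟨hZX, hZ⟩) h3 h4

theorem card_class {t : ℕ} {K : Finset (Fin s)} (r : ℕ) : ∀ (M : Finset (Fin s))
    (H : Finset (Fin s → V)), (∀ M', M' ≠ Finset.univ → K ⊆ M' → Bad H t M') → K ⊆ M →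
    s ≤ M.card + r → (∀ X ∈ H, ∀ Y ∈ H, ∀ i ∈ M, Y i = X i) → H.card ≤ (s * t + 1) ^ r := by
  classical
  induction r with
  | zero =>
    intro M H _ _ h1 h2
    have : M = Finset.univ := Finset.eq_univ_of_card _ (le_antisymm (Finset.card_le_univ _)
      (by simpa using h1))
    rw [pow_zero]
    exact Finset.card_le_one.2 fun X hX Y hY => funext fun i => (h2 X hX Y hY i (by simp [this])).symm
  | succ r ih =>
    intro M H hB hK h1 h2
    by_cases hM : M = Finset.univ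
    · refine (ih M H hB hK (by simp [hM]) h2).trans (Nat.pow_le_pow_right (by omega) (by omega))
    rcases H.eq_empty_or_nonempty with rfl | ⟨X, hX⟩
    · simp
    obtain ⟨U, hU, h3⟩ := hB M hM hK X hX
    have h4 : H ⊆ (Mᶜ ×ˢ U).biUnion fun p => H.filter fun Y => Y p.1 = p.2 := by
      intro Y hY
      obtain ⟨i, hi, hi'⟩ := h3 Y hY (h2 X hX Y hY)
      exact Finset.mem_biUnion.2 ⟨(i, Y i), Finset.mem_product.2 ⟨Finset.mem_compl.2 hi, hi'⟩,
        Finset.mem_filter.2 ⟨hY, rfl⟩⟩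
    refine (Finset.card_le_card h4).trans ((Finset.card_biUnion_le_card_mul _ _
      ((s * t + 1) ^ r) fun p hp => ?_).trans ?_)
    · have hp1 : p.1 ∉ M := Finset.mem_compl.1 (Finset.mem_product.1 hp).1
      refine ih (insert p.1 M) _ (fun M' a b => (hB M' a b).mono (Finset.filter_subset _ _))
        (hK.trans (Finset.subset_insert _ _)) (by rw [Finset.card_insert_of_notMem hp1]; omega) ?_
      intro Y hY Z hZ i hi
      rw [Finset.mem_filter] at hY hZ
      rcases Finset.mem_insert.1 hi with rfl | hi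
      · rw [hY.2, hZ.2]
      · exact h2 Y hY.1 Z hZ.1 i hi
    · rw [Finset.card_product, pow_succ']
      refine Nat.mul_le_mul_right _ ((Nat.mul_le_mul ?_ hU).trans (Nat.le_succ _))
      simpa using Finset.card_le_univ Mᶜ

theorem card_pair [Finite V] {G : SimpleGraph V} {t : ℕ} {k l : Fin s} (hkl : k ≠ l)
    {H : Finset (Fin s → V)} (hH : Cl G H)
    (hB : ∀ M', M' ≠ Finset.univ → k ∈ M' → l ∈ M' → Bad H t M') :
    H.card ≤ (s * t + 1) ^ s * (2 * ec G) := by
  classical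
  have := Fintype.ofFinite V
  let P : Finset (V × V) := Finset.univ.filter fun p => G.Adj p.1 p.2
  have h1 : P.card = 2 * ec G := by
    unfold ec
    rw [← SimpleGraph.coe_edgeFinset, Set.ncard_coe_finset, ← dart_card_eq_twice_card_edges,
      ← Finset.card_univ]
    symm
    refine Finset.card_bij (fun d _ => d.toProd) (fun d _ => by simp [P])
      (fun a _ b _ h => Dart.ext _ _ h) fun p hp => ⟨⟨p, by simpa [P] using hp⟩, by simp, rfl⟩
  rw [← h1]
  refine Finset.card_le_mul_card_image_of_maps_to (f := fun X => (X k, X l))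
    (fun X hX => by simpa [P] using hH X hX k l hkl) _ fun p _ => ?_
  refine card_class (K := {k, l}) s {k, l} _ (fun M' a b =>
    (hB M' a (b (by simp)) (b (by simp))).mono (Finset.filter_subset _ _)) subset_rfl
    (by omega) ?_
  intro X hX Y hY i hi
  have h2 := ((Finset.mem_filter.1 hY).2).trans (Finset.mem_filter.1 hX).2.symm
  simp only [Prod.mk.injEq] at h2
  rcases Finset.mem_insert.1 hi with rfl | hi
  · exact h2.1
  · rw [Finset.mem_singleton.1 hi]; exact h2.2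

theorem card_linear (hs : 3 ≤ s) [Finite V] {G : SimpleGraph V} {t : ℕ}
    (hG : ∀ 𝓜 : Set (Finset (Fin s)), Finset.univ ∉ 𝓜 → (∀ k l, ∃ M ∈ 𝓜, k ∈ M ∧ l ∈ M) →
      ∀ H : Finset (Fin s → V), Cl G H → H.Nonempty → ¬ Clo H t 𝓜) (r : ℕ) :
    ∀ (𝓜 : Finset (Finset (Fin s))) (H : Finset (Fin s → V)), 𝓜.card ≤ r → Finset.univ ∉ 𝓜 →
      Cl G H → (∀ M, M ≠ Finset.univ → M ∉ 𝓜 → Bad H t M) →
      H.card ≤ r.factorial * ((s * t + 1) ^ s * (2 * ec G)) := by
  classical
  have key : ∀ (𝓜 : Finset (Finset (Fin s))) (H : Finset (Fin s → V)), Cl G H →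
      (∀ M, M ≠ Finset.univ → M ∉ 𝓜 → Bad H t M) → ¬ (∀ k l, ∃ M ∈ 𝓜, k ∈ M ∧ l ∈ M) →
      H.card ≤ (s * t + 1) ^ s * (2 * ec G) := by
    intro 𝓜 H hH hB h
    push Not at h
    obtain ⟨k, l, h⟩ := h
    by_cases hkl : k = l
    · subst hkl
      have : Nontrivial (Fin s) := Fin.nontrivial_iff_two_le.2 (by omega)
      obtain ⟨l, hl⟩ := exists_ne k
      exact card_pair hl hH fun M a _ c => hB M a fun d => h M d c c
    · exact card_pair hkl hH fun M a b c => hB M a fun d => h M d b c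
  induction r with
  | zero =>
    intro 𝓜 H h1 _ hH hB
    rw [Nat.factorial_zero, one_mul]
    refine key 𝓜 H hH hB fun h => ?_
    obtain ⟨M, hM, -⟩ := h ⟨0, by omega⟩ ⟨0, by omega⟩
    have := Finset.card_pos.2 ⟨M, hM⟩
    omega
  | succ r ih =>
    intro 𝓜 H h1 h2 hH hB
    by_cases h : ∀ k l, ∃ M ∈ 𝓜, k ∈ M ∧ l ∈ M
    swap
    · exact (key 𝓜 H hH hB h).trans (Nat.le_mul_of_pos_left _ (Nat.factorial_pos _))
    obtain ⟨f, f1, f2⟩ := cleaning (t := t) (𝓜 := (𝓜 : Set (Finset (Fin s)))) H fun H' hH' =>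
      hG _ h2 h H' fun X hX => hH X (hH' hX)
    refine (Finset.card_le_mul_card_image_of_maps_to (f := f) (t := 𝓜) f1
      (r.factorial * ((s * t + 1) ^ s * (2 * ec G))) fun M hM => ?_).trans ?_
    · refine ih (𝓜.erase M) _ (by rw [Finset.card_erase_of_mem hM]; omega)
        (fun h => h2 (Finset.mem_of_mem_erase h)) (fun X hX => hH X (Finset.mem_filter.1 hX).1)
        fun M' a b => ?_
      by_cases hMM : M' = M
      · intro X hX
        rw [Finset.mem_filter] at hX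
        obtain ⟨U, hU, h3⟩ := f2 X hX.1
        rw [hX.2] at h3
        refine ⟨U, hU, fun Y hY => ?_⟩
        rw [Finset.mem_filter] at hY
        rw [hMM]
        exact h3 Y hY.1 hY.2
      · exact (hB M' a fun h => b (Finset.mem_erase.2 ⟨hMM, h⟩)).mono (Finset.filter_subset _ _)
    · rw [Nat.factorial_succ, mul_comm, mul_assoc]
      exact Nat.mul_le_mul_right _ h1

lemma exists_cl [Finite V] (G : SimpleGraph V) :
    ∃ H : Finset (Fin s → V), Cl G H ∧ kc s G ≤ H.card := by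
  classical
  have := Fintype.ofFinite V
  refine ⟨Finset.univ.filter fun X => ∀ i j, i ≠ j → G.Adj (X i) (X j),
    fun X hX => (Finset.mem_filter.1 hX).2, ?_⟩
  unfold kc
  rw [← coe_cliqueFinset, Set.ncard_coe_finset]
  refine Finset.card_le_card_of_surjOn (fun X => Finset.univ.image X) fun Q hQ => ?_
  have hQ' : G.IsNClique s Q := mem_cliqueFinset_iff.1 hQ
  let e := (Q.equivFinOfCardEq hQ'.card_eq).symm
  refine ⟨fun i => e i, ?_, ?_⟩
  · simp only [Finset.coe_filter, Finset.mem_univ, true_and, Set.mem_ofPred_eq]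
    exact fun i j hij => hQ'.isClique (e i).2 (e j).2 fun h => hij (e.injective (Subtype.ext h))
  · ext x
    simp only [Finset.mem_image, Finset.mem_univ, true_and]
    exact ⟨fun ⟨i, hi⟩ => hi ▸ (e i).2, fun hx => ⟨e.symm ⟨x, hx⟩, by simp⟩⟩

theorem mex_le_const (hs : 3 ≤ s) {W : Type} {F : SimpleGraph W} (hF : InSunflowers s F) :
    ∃ C : ℕ, ∀ m, mex s m F ≤ C := by
  obtain ⟨t, ht⟩ := exists_bound (s := s) (by omega) F
  refine ⟨(s * t + 1) ^ s, fun m => ?_⟩
  have := mex_le (s := s) (m := m) (F := F) (B := (((s * t + 1) ^ s : ℕ) : ℝ)) (by positivity)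
    fun n G hG _ => by
      obtain ⟨H, hH, h1⟩ := exists_cl (s := s) G
      refine Nat.cast_le.2 (h1.trans (card_class (K := ∅) s ∅ H (fun M hM _ X hX => ?_) subset_rfl
        (by omega) (by simp)))
      obtain ⟨f, f1, f2⟩ := cleaning (t := t) (𝓜 := {M}) H fun H' hH' =>
        ht _ (hF M hM) _ G hG H' fun X hX => hH X (hH' hX)
      obtain ⟨U, hU, h2⟩ := f2 X hX
      rw [show f X = M from f1 X hX] at h2
      exact ⟨U, hU, fun Y hY => h2 Y hY (f1 Y hY)⟩
  exact_mod_cast this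

theorem mex_le_linear (hs : 3 ≤ s) {W : Type} {F : SimpleGraph W} (hF : InPairTrees s F) :
    ∃ C : ℕ, ∀ m, mex s m F ≤ C * m := by
  classical
  obtain ⟨t, ht⟩ := exists_bound (s := s) (by omega) F
  refine ⟨(2 ^ s).factorial * ((s * t + 1) ^ s * 2), fun m => ?_⟩
  have := mex_le (s := s) (m := m) (F := F)
    (B := (((2 ^ s).factorial * ((s * t + 1) ^ s * 2) * m : ℕ) : ℝ)) (by positivity)
    fun n G hG hm => by
      obtain ⟨H, hH, h1⟩ := exists_cl (s := s) G
      refine Nat.cast_le.2 (h1.trans ((card_linear hs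
        (fun 𝓜 a b => ht 𝓜 (hF 𝓜 a b) _ G hG) (2 ^ s) (Finset.univ.erase Finset.univ) H
        ((Finset.card_le_univ _).trans (by simp)) (by simp) hH
        fun M a b => absurd (Finset.mem_erase.2 ⟨a, Finset.mem_univ _⟩) b).trans (le_of_eq ?_)))
      rw [hm]; ring
  exact_mod_cast this

end Pool.Agent.P.MP_80f86c_co.Gen
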