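import Pool.Agent.P.MP_80f86c_co.Poly.Walk
import Pool.Agent.P.MP_80f86c_co.Gen.Upper

/-!
Chamber systems that look locally like trees of cliques, and the lower bounds they give.
-/

namespace Pool.Agent.P.MP_80f86c_co.Gen

open SimpleGraph Pool.Agent.P.MP_80f86c_co.Poly

variable {s : ℕ}

/-- gluing along `M` can be simulated in `𝓜`-trees -/
def Ext (𝓜 : Set (Finset (Fin s))) (M : Finset (Fin s)) : Prop :=
  ∀ L, IsTree 𝓜 L → ∀ c ∈ L, ∃ L' d, IsTree 𝓜 L' ∧ (∀ e ∈ L, e ∈ L') ∧ d ∈ L' ∧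
    (∀ i ∈ M, d i = c i) ∧ ∀ i, i ∉ M → ∀ e ∈ L, ∀ j, d i ≠ e j

lemma tree_inj {𝓜 : Set (Finset (Fin s))} {L : List (Fin s → ℕ)} (h : IsTree 𝓜 L) :
    ∀ c ∈ L, Function.Injective c := by
  induction h with
  | base c hc => intro e he; rw [List.mem_singleton.1 he]; exact hc
  | glue L c d M _ _ _ hd _ _ ih =>
    intro e he
    rcases List.mem_cons.1 he with rfl | he
    · exact hd
    · exact ih e he

lemma ext_mem {𝓜 : Set (Finset (Fin s))} {M : Finset (Fin s)} (h : M ∈ 𝓜) : Ext 𝓜 M := by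
  classical
  intro L hL c hc
  obtain ⟨B, hB⟩ := (L.toFinset.biUnion fun e => Finset.univ.image e).bddAbove
  have hB' : ∀ e ∈ L, ∀ j, e j ≤ B := fun e he j => hB (Finset.mem_coe.2
    (Finset.mem_biUnion.2 ⟨e, List.mem_toFinset.2 he, Finset.mem_image_of_mem _ (by simp)⟩))
  have h1 : ∀ i ∈ M, (if i ∈ M then c i else B + 1 + i) = c i := fun i hi => if_pos hi
  have h2 : ∀ i, i ∉ M → ∀ e ∈ L, ∀ j, (if i ∈ M then c i else B + 1 + i) ≠ e j := by
    intro i hi e he j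
    have := hB' e he j
    rw [if_neg hi]
    omega
  refine ⟨_, fun i => if i ∈ M then c i else B + 1 + i, IsTree.glue L c _ M hL hc h ?_ h1 h2,
    fun e he => List.mem_cons_of_mem _ he, List.mem_cons_self, h1, h2⟩
  intro i j hij
  have a := hB' c hc i
  have b := hB' c hc j
  by_cases hi : i ∈ M <;> by_cases hj : j ∈ M <;> simp only [hi, hj, if_true, if_false] at hij
  · exact tree_inj hL c hc hij
  · omega
  · omega
  · exact Fin.ext (by omega)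

lemma ext_inf {𝓜 : Set (Finset (Fin s))} (𝓕 : Finset (Finset (Fin s))) (h : ∀ M ∈ 𝓕, M ∈ 𝓜) :
    Ext 𝓜 (𝓕.inf id) := by
  classical
  induction 𝓕 using Finset.induction_on with
  | empty => exact fun L hL c hc => ⟨L, c, hL, fun _ h => h, hc, fun _ _ => rfl, by simp⟩
  | insert M 𝓕 _ ih =>
    intro L hL c hc
    obtain ⟨L₁, d₁, a1, a2, a3, a4, a5⟩ := ih (fun M hM => h M (by simp [hM])) L hL c hc
    obtain ⟨L₂, d₂, b1, b2, b3, b4, b5⟩ := ext_mem (h M (by simp)) L₁ a1 d₁ a3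
    rw [Finset.inf_insert]
    refine ⟨L₂, d₂, b1, fun e he => b2 e (a2 e he), b3, fun i hi => ?_, fun i hi e he j => ?_⟩
    · have := Finset.mem_inter.1 hi
      rw [b4 i this.1, a4 i this.2]
    · by_cases hM : i ∈ M
      · rw [b4 i hM]
        exact a5 i (fun h => hi (Finset.mem_inter.2 ⟨hM, h⟩)) e he j
      · exact b5 i hM e (a2 e he) j

/-- two vertices lie in a common chamber -/
def Rel {C V : Type} (ty : V → Fin s) (v : C → Fin s → V) (x y : V) : Prop :=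
  ∃ g, v g (ty x) = x ∧ v g (ty y) = y

/-- chamber systems that are locally trees -/
structure Geo (𝓔 : Set (Finset (Fin s))) (N : ℕ) (C V : Type) where
  ty : V → Fin s
  v : C → Fin s → V
  ty_v : ∀ g k, ty (v g k) = k
  short : Short (Rel ty v) N
  helly : ∀ Q : Finset V, (∀ x ∈ Q, ∀ y ∈ Q, x ≠ y → Rel ty v x y) →
    ∃ g, ∀ x ∈ Q, v g (ty x) = x
  conn : ∀ g h, Relation.ReflTransGen
    (fun a b => ∃ M ∈ 𝓔, (∀ k, v g k = v h k → k ∈ M) ∧ ∀ k ∈ M, v b k = v a k) g h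

namespace Geo

variable {𝓔 𝓜 : Set (Finset (Fin s))} {N : ℕ} {C V : Type} (Γ : Geo 𝓔 N C V)

/-- the underlying graph -/
def graph : SimpleGraph V where
  Adj x y := x ≠ y ∧ Rel Γ.ty Γ.v x y
  symm := ⟨fun _ _ ⟨h, g, h1, h2⟩ => ⟨h.symm, g, h2, h1⟩⟩
  loopless := ⟨fun _ h => h.1 rfl⟩

lemma adj_v (g : C) {k l : Fin s} (h : k ≠ l) : Γ.graph.Adj (Γ.v g k) (Γ.v g l) :=
  ⟨fun h' => h (by rw [← Γ.ty_v g k, h', Γ.ty_v]), g, by rw [Γ.ty_v], by rw [Γ.ty_v]⟩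

lemma ty_ne {x y : V} (h : Γ.graph.Adj x y) : Γ.ty x ≠ Γ.ty y := fun h' => by
  obtain ⟨h1, g, h2, h3⟩ := h
  exact h1 (by rw [← h2, h', h3])

lemma gallery (hE : ∀ M ∈ 𝓔, Ext 𝓜 M) (g h : C) {L : List (Fin s → ℕ)} (hL : IsTree 𝓜 L)
    (ψ : ℕ → V) {c : Fin s → ℕ} (hc : c ∈ L) (hg : ∀ k, ψ (c k) = Γ.v g k) :
    ∃ (L' : List (Fin s → ℕ)) (ψ' : ℕ → V) (c' : Fin s → ℕ), IsTree 𝓜 L' ∧ (∀ e ∈ L, e ∈ L') ∧
      (∀ e ∈ L, ∀ j, ψ' (e j) = ψ (e j)) ∧ c' ∈ L' ∧ (∀ k, ψ' (c' k) = Γ.v h k) ∧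
      ∀ k, Γ.v g k = Γ.v h k → c' k = c k := by
  have key : ∀ b, Relation.ReflTransGen (fun a b => ∃ M ∈ 𝓔, (∀ k, Γ.v g k = Γ.v h k → k ∈ M) ∧
      ∀ k ∈ M, Γ.v b k = Γ.v a k) g b →
      ∃ (L' : List (Fin s → ℕ)) (ψ' : ℕ → V) (c' : Fin s → ℕ), IsTree 𝓜 L' ∧ (∀ e ∈ L, e ∈ L') ∧
      (∀ e ∈ L, ∀ j, ψ' (e j) = ψ (e j)) ∧ c' ∈ L' ∧ (∀ k, ψ' (c' k) = Γ.v b k) ∧
      ∀ k, Γ.v g k = Γ.v h k → c' k = c k := by
    intro b hb
    induction hb with
    | refl => exact ⟨L, ψ, c, hL, fun _ h => h, fun _ _ _ => rfl, hc, hg, fun _ _ => rfl⟩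
    | @tail a b _ hab ih =>
      obtain ⟨M, hM, m1, m2⟩ := hab
      obtain ⟨L₁, ψ₁, c₁, a1, a2, a3, a4, a5, a6⟩ := ih
      obtain ⟨L₂, d, b1, b2, b3, b4, b5⟩ := hE M hM L₁ a1 c₁ a4
      have hd := tree_inj b1 d b3
      have hold := extend_old (ψ := ψ₁) (Y := Γ.v b) hd b4 b5
        fun i hi => (m2 i hi).trans (a5 i).symm
      exact ⟨L₂, Function.extend d (Γ.v b) ψ₁, d, b1, fun e he => b2 e (a2 e he),
        fun e he j => (hold e (a2 e he) j).trans (a3 e he j), b3, fun k => hd.extend_apply _ _ _,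
        fun k hk => (b4 k (m1 k hk)).trans (a6 k hk)⟩
  exact key h (Γ.conn g h)

theorem embed (hs : 0 < s) (hE : ∀ M ∈ 𝓔, Ext 𝓜 M) {W : Type} [Fintype W] (f : W → V)
    (hf : Function.Injective f) (hN : Fintype.card W + 1 ≤ N) (S : Finset W) :
    ∃ (L : List (Fin s → ℕ)) (ψ : ℕ → V) (φ : W → ℕ), IsTree 𝓜 L ∧
      ∀ Q ⊆ S, (∀ x ∈ Q, ∀ y ∈ Q, x ≠ y → Γ.graph.Adj (f x) (f y)) →
        ∃ c ∈ L, ∃ g, (∀ k, ψ (c k) = Γ.v g k) ∧
          ∀ x ∈ Q, Γ.v g (Γ.ty (f x)) = f x ∧ c (Γ.ty (f x)) = φ x := by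
  classical
  have hch : IsChordal (Γ.graph.comap f) := by
    intro n h4 hn
    have h1 : n ≤ Fintype.card W := by
      obtain ⟨e⟩ := hn
      simpa using Fintype.card_le_of_injective _ e.injective
    refine no_indCycle_of_short Γ.graph (R := Rel Γ.ty Γ.v) (fun _ _ h => h.2)
      (fun v w h => ?_) Γ.short h4 (by omega) (hn.trans ⟨Embedding.comap ⟨f, hf⟩ Γ.graph⟩)
    by_cases hvw : v = w
    · exact Or.inl hvw
    · exact Or.inr ⟨hvw, h⟩
  induction S using Finset.strongInduction with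
  | H S ih =>
  rcases S.eq_empty_or_nonempty with rfl | hne
  · obtain ⟨g, -⟩ := Γ.helly ∅ (by simp)
    refine ⟨[Fin.val], Function.extend Fin.val (Γ.v g) fun _ => Γ.v g ⟨0, hs⟩, fun _ => 0,
      IsTree.base _ Fin.val_injective, fun Q hQ _ => ⟨Fin.val, by simp, g,
        fun k => Fin.val_injective.extend_apply _ _ _, fun x hx => absurd (hQ hx) (by simp)⟩⟩
  obtain ⟨x, hx, hsim⟩ := hch.simplicial S hne
  obtain ⟨L, ψ, φ, hL, h1⟩ := ih (S.erase x) (Finset.erase_ssubset hx)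
  let K := S.filter fun y => Γ.graph.Adj (f x) (f y)
  have hK : ∀ y ∈ K, ∀ z ∈ K, y ≠ z → Γ.graph.Adj (f y) (f z) := fun y hy z hz hyz =>
    hsim y (Finset.mem_filter.1 hy).1 z (Finset.mem_filter.1 hz).1 (Finset.mem_filter.1 hy).2
      (Finset.mem_filter.1 hz).2 hyz
  obtain ⟨c, hc, g, hg, h2⟩ := h1 K (fun y hy => Finset.mem_erase.2
    ⟨fun h => (Finset.mem_filter.1 hy).2.ne (by rw [h]), (Finset.mem_filter.1 hy).1⟩) hK
  obtain ⟨h, hh⟩ := Γ.helly ((insert x K).image f) (by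
    intro a ha b hb hab
    obtain ⟨y, hy, rfl⟩ := Finset.mem_image.1 ha
    obtain ⟨z, hz, rfl⟩ := Finset.mem_image.1 hb
    rcases Finset.mem_insert.1 hy with rfl | hy' <;> rcases Finset.mem_insert.1 hz with rfl | hz'
    · exact absurd rfl hab
    · exact (Finset.mem_filter.1 hz').2.2
    · exact (Finset.mem_filter.1 hy').2.symm.2
    · exact (hK y hy' z hz' fun h => hab (by rw [h])).2)
  obtain ⟨L', ψ', c', a1, a2, a3, a4, a5, a6⟩ := Γ.gallery hE g h hL ψ hc hg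
  refine ⟨L', ψ', Function.update φ x (c' (Γ.ty (f x))), a1, fun Q hQ hQ' => ?_⟩
  by_cases hxQ : x ∈ Q
  · refine ⟨c', a4, h, a5, fun y hy => ?_⟩
    by_cases hyx : y = x
    · rw [hyx, Function.update_self]
      exact ⟨hh _ (Finset.mem_image_of_mem _ (by simp)), rfl⟩
    · have hyK : y ∈ K := Finset.mem_filter.2 ⟨hQ hy, hQ' x hxQ y hy (Ne.symm hyx)⟩
      have e1 := hh _ (Finset.mem_image_of_mem f (Finset.mem_insert_of_mem (b := x) hyK))
      rw [Function.update_of_ne hyx]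
      exact ⟨e1, (a6 _ ((h2 y hyK).1.trans e1.symm)).trans (h2 y hyK).2⟩
  · obtain ⟨e, he, g', b1, b2⟩ := h1 Q (fun y hy => Finset.mem_erase.2
      ⟨fun h => hxQ (h ▸ hy), hQ hy⟩) hQ'
    refine ⟨e, a2 e he, g', fun k => (a3 e he k).trans (b1 k), fun y hy => ?_⟩
    rw [Function.update_of_ne fun h : y = x => hxQ (h ▸ hy)]
    exact b2 y hy

theorem free (hs : 0 < s) (hE : ∀ M ∈ 𝓔, Ext 𝓜 M) {W : Type} [Fintype W] {F : SimpleGraph W}
    (hF : ¬ InTree 𝓜 F) (hN : Fintype.card W + 1 ≤ N) : F.Free Γ.graph := by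
  classical
  rintro ⟨f⟩
  obtain ⟨L, ψ, φ, hL, h⟩ := Γ.embed hs hE f f.injective hN Finset.univ
  have h1 : ∀ w, ∃ c ∈ L, ∃ i, c i = φ w ∧ ψ (φ w) = f w := by
    intro w
    obtain ⟨c, hc, g, a, b⟩ := h {w} (by simp) (by simp)
    obtain ⟨b1, b2⟩ := b w (by simp)
    exact ⟨c, hc, _, b2, by rw [← b2, a, b1]⟩
  refine hF ⟨L, φ, hL, fun v w hvw => f.injective ?_, fun w => ?_, fun v w hvw => ?_⟩
  · obtain ⟨_, _, _, _, a⟩ := h1 v
    obtain ⟨_, _, _, _, b⟩ := h1 w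
    exact a.symm.trans (hvw ▸ b)
  · obtain ⟨c, hc, i, a, -⟩ := h1 w
    exact ⟨c, hc, i, a⟩
  · obtain ⟨c, hc, g, -, b⟩ := h {v, w} (by simp) (by
      have := f.toHom.map_rel hvw
      intro x hx y hy hxy
      simp only [Finset.mem_insert, Finset.mem_singleton] at hx hy
      rcases hx with rfl | rfl <;> rcases hy with rfl | rfl
      exacts [absurd rfl hxy, this, this.symm, absurd rfl hxy])
    exact ⟨c, hc, ⟨_, (b v (by simp)).2⟩, _, (b w (by simp)).2⟩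

/-- vertices of `T + 1` copies glued along the types in `Z` -/
abbrev GV (Z : Finset (Fin s)) (T : ℕ) : Type :=
  {p : V × Fin (T + 1) // Γ.ty p.1 ∈ Z → p.2 = 0}

/-- the copy number `i` -/
def emb (Z : Finset (Fin s)) (T : ℕ) (i : Fin (T + 1)) (x : V) : Γ.GV Z T :=
  ⟨(x, if Γ.ty x ∈ Z then 0 else i), fun h => if_pos h⟩

lemma emb_inj (Z : Finset (Fin s)) (T : ℕ) (i : Fin (T + 1)) :
    Function.Injective (Γ.emb Z T i) := fun _ _ h => congrArg (fun p => p.1.1) h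

lemma emb_eq {Z : Finset (Fin s)} {T : ℕ} {i : Fin (T + 1)} {p : Γ.GV Z T} :
    Γ.emb Z T i p.1.1 = p ↔ (Γ.ty p.1.1 ∉ Z → p.1.2 = i) := by
  obtain ⟨⟨x, j⟩, hp⟩ := p
  by_cases h : Γ.ty x ∈ Z
  · have : j = 0 := hp h
    simp [emb, h, this]
  · simp [emb, h, eq_comm]

lemma rel_glue {Z : Finset (Fin s)} {T : ℕ} {p q : Γ.GV Z T} :
    Rel (C := C × Fin (T + 1)) (fun p : Γ.GV Z T => Γ.ty p.1.1)
      (fun g k => Γ.emb Z T g.2 (Γ.v g.1 k)) p q ↔
    Rel Γ.ty Γ.v p.1.1 q.1.1 ∧ (Γ.ty p.1.1 ∉ Z → Γ.ty q.1.1 ∉ Z → p.1.2 = q.1.2) := by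
  constructor
  · rintro ⟨⟨g, i⟩, h1, h2⟩
    have a : Γ.v g (Γ.ty p.1.1) = p.1.1 := congrArg (fun p => p.1.1) h1
    have b : Γ.v g (Γ.ty q.1.1) = q.1.1 := congrArg (fun p => p.1.1) h2
    simp only [a, b] at h1 h2
    exact ⟨⟨g, a, b⟩, fun c d => (Γ.emb_eq.1 h1 c).trans (Γ.emb_eq.1 h2 d).symm⟩
  · rintro ⟨⟨g, a, b⟩, h⟩
    refine ⟨(g, if Γ.ty p.1.1 ∈ Z then q.1.2 else p.1.2), ?_, ?_⟩
    · simp only [a]
      exact Γ.emb_eq.2 fun c => (if_neg c).symm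
    · simp only [b]
      refine Γ.emb_eq.2 fun c => ?_
      split_ifs with d
      · rfl
      · exact (h d c).symm

/-- copies glued along the types in `Z` -/
def glue (Z : Finset (Fin s)) (hZ : ∀ g h, ∀ k ∈ Z, Γ.v g k = Γ.v h k) (T : ℕ) :
    Geo (insert Z 𝓔) N (C × Fin (T + 1)) (Γ.GV Z T) where
  ty p := Γ.ty p.1.1
  v g k := Γ.emb Z T g.2 (Γ.v g.1 k)
  ty_v g k := Γ.ty_v _ _
  short := by
    intro m z hm hN h1 h2
    simp only [Γ.rel_glue] at h1 h2 ⊢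
    have hcone : ∀ p q : Γ.GV Z T, Γ.ty p.1.1 ∈ Z → Rel Γ.ty Γ.v p.1.1 q.1.1 := by
      classical
      intro p q hp
      obtain ⟨g, hg⟩ := Γ.helly {p.1.1} (by simp)
      obtain ⟨h, hh⟩ := Γ.helly {q.1.1} (by simp)
      exact ⟨h, (hZ h g _ hp).trans (hg _ (by simp)), hh _ (by simp)⟩
    have hsym : ∀ x y, Rel Γ.ty Γ.v x y → Rel Γ.ty Γ.v y x := fun _ _ ⟨g, a, b⟩ => ⟨g, b, a⟩
    by_cases hc : ∃ i, i ≤ m ∧ Γ.ty (z i).1.1 ∈ Z
    · obtain ⟨i, hi, hc⟩ := hc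
      by_cases a : i + 2 ≤ m
      · exact ⟨i, a, hcone _ _ hc, fun h => absurd hc h⟩
      by_cases b : 2 ≤ i
      · obtain ⟨j, rfl⟩ : ∃ j, i = j + 2 := ⟨i - 2, by omega⟩
        exact ⟨j, hi, hsym _ _ (hcone _ _ hc), fun _ h => absurd hc h⟩
      obtain rfl : m = 2 := by omega
      exact ⟨0, le_rfl, hsym _ _ h2.1, fun a b => (h2.2 b a).symm⟩
    · push Not at hc
      obtain ⟨i, hi, h3⟩ := Γ.short m (fun i => (z i).1.1) hm hN (fun i hi => (h1 i hi).1) h2.1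
      exact ⟨i, hi, h3, fun a b => ((h1 i (by omega)).2 a (hc _ (by omega))).trans
        ((h1 (i + 1) (by omega)).2 (hc _ (by omega)) b)⟩
  helly := by
    classical
    intro Q hQ
    simp only [Γ.rel_glue] at hQ
    obtain ⟨g, hg⟩ := Γ.helly (Q.image fun p => p.1.1) (by
      intro a ha b hb hab
      obtain ⟨p, hp, rfl⟩ := Finset.mem_image.1 ha
      obtain ⟨q, hq, rfl⟩ := Finset.mem_image.1 hb
      exact (hQ p hp q hq fun h => hab (by rw [h])).1)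
    have : ∃ i, ∀ p ∈ Q, Γ.ty p.1.1 ∉ Z → p.1.2 = i := by
      by_cases h : ∃ p ∈ Q, Γ.ty p.1.1 ∉ Z
      · obtain ⟨p, hp, h⟩ := h
        refine ⟨p.1.2, fun q hq h' => ?_⟩
        by_cases hqp : q = p
        · rw [hqp]
        · exact (hQ q hq p hp hqp).2 h' h
      · exact ⟨0, fun p hp h' => absurd ⟨p, hp, h'⟩ h⟩
    obtain ⟨i, hi⟩ := this
    refine ⟨(g, i), fun p hp => ?_⟩
    simp only [hg _ (Finset.mem_image_of_mem _ hp)]
    exact Γ.emb_eq.2 (hi p hp)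
  conn := by
    rintro ⟨g, i⟩ ⟨h, j⟩
    by_cases hij : i = j
    · subst hij
      refine Relation.ReflTransGen.lift (fun a => (a, i)) ?_ g h (Γ.conn g h)
      rintro a b ⟨M, hM, h1, h2⟩
      exact ⟨M, Set.mem_insert_of_mem _ hM, fun k hk => h1 k (Γ.emb_inj Z T i hk),
        fun k hk => by simp only [h2 k hk]⟩
    · refine Relation.ReflTransGen.single ⟨Z, Set.mem_insert _ _, fun k hk => ?_, fun k hk => ?_⟩
      · by_contra hk'
        have := congrArg (fun p => p.1.2) hk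
        simp only [emb, Γ.ty_v, hk', if_false] at this
        exact hij this
      · simp only [emb, Γ.ty_v, hk, if_true, hZ h g k hk]

theorem lower [Finite V] (hs : 3 ≤ s) (Z : Finset (Fin s)) (hZ : ∀ g h, ∀ k ∈ Z, Γ.v g k = Γ.v h k)
    (hZu : Z ≠ Finset.univ) (hE : ∀ M ∈ insert Z 𝓔, Ext 𝓜 M) {W : Type} [Fintype W]
    {F : SimpleGraph W} (hF : ¬ InTree 𝓜 F) (hN : Fintype.card W + 1 ≤ N) (m : ℕ) :
    m / ec Γ.graph * kc s Γ.graph ≤ mex s m F := by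
  classical
  let Ω := (Γ.glue Z hZ m).graph
  have hΩ : F.Free Ω := (Γ.glue Z hZ m).free (by omega) hE hF hN
  obtain ⟨k, hk⟩ : ∃ k, k ∉ Z := by
    by_contra h
    push Not at h
    exact hZu (Finset.eq_univ_of_forall h)
  have hadj : ∀ i x y, Γ.graph.Adj x y → Ω.Adj (Γ.emb Z m i x) (Γ.emb Z m i y) := by
    rintro i x y ⟨h, g, h1, h2⟩
    refine ⟨fun h' => h (Γ.emb_inj Z m i h'), (g, i), ?_, ?_⟩
    · exact congrArg (Γ.emb Z m i) h1
    · exact congrArg (Γ.emb Z m i) h2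
  let ι : Fin (m / ec Γ.graph) → Fin (m + 1) :=
    Fin.castLE ((Nat.div_le_self _ _).trans (Nat.le_succ _))
  let E₀ : Set (Sym2 (Γ.GV Z m)) := (fun p : Fin (m / ec Γ.graph) × Sym2 V =>
    p.2.map (Γ.emb Z m (ι p.1))) '' (Set.univ ×ˢ Γ.graph.edgeSet)
  have e1 : E₀ ⊆ Ω.edgeSet := by
    rintro _ ⟨⟨i, e⟩, ⟨-, he⟩, rfl⟩
    induction e using Sym2.ind with
    | h x y => exact hadj _ x y he
  have e2 : E₀.ncard ≤ m := by
    refine (Set.ncard_image_le (Set.toFinite _)).trans ?_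
    rw [Set.ncard_prod, Set.ncard_univ, Nat.card_eq_fintype_card, Fintype.card_fin]
    exact Nat.div_mul_le_self _ _
  have e3 : m ≤ Ω.edgeSet.ncard := by
    obtain ⟨g, -⟩ := Γ.helly ∅ (by simp)
    have : Nontrivial (Fin s) := Fin.nontrivial_iff_two_le.2 (by omega)
    obtain ⟨l, hl⟩ := exists_ne k
    have := Set.ncard_le_ncard_of_injOn (s := (Set.univ : Set (Fin (m + 1)))) (t := Ω.edgeSet)
      (fun i => s(Γ.emb Z m i (Γ.v g k), Γ.emb Z m i (Γ.v g l)))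
      (fun i _ => hadj i _ _ (Γ.adj_v g hl.symm)) (fun i _ j _ h => by
        rcases Sym2.eq_iff.1 h with h | h
        · simpa [emb, Γ.ty_v, hk] using h.1
        · have := congrArg (fun p => Γ.ty p.1.1) h.1
          simp only [emb, Γ.ty_v] at this
          exact absurd this.symm hl) (Set.toFinite _)
    simp only [Set.ncard_univ, Nat.card_eq_fintype_card, Fintype.card_fin] at this
    omega
  obtain ⟨E, hE1, hE2, hE3⟩ := Set.exists_subsuperset_card_eq e1 e2 e3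
  have hle : fromEdgeSet E ≤ Ω := by
    rw [← fromEdgeSet_edgeSet Ω]; exact fromEdgeSet_mono hE2
  have hed : (fromEdgeSet E).edgeSet = E := by
    rw [edgeSet_fromEdgeSet]
    exact Disjoint.sdiff_eq_left (Set.disjoint_left.2 fun x hx hd =>
      Ω.not_isDiag_of_mem_edgeSet (hE2 hx) hd)
  refine le_trans ?_ (le_mex (by omega) (fromEdgeSet E)
    (fun h => hΩ (h.trans (IsContained.of_le hle))) (by rw [ec, hed, hE3]))
  let cp : Fin (m / ec Γ.graph) → Copy Γ.graph (fromEdgeSet E) := fun i =>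
    ⟨⟨Γ.emb Z m (ι i), fun {x y} h => by
      rw [← mem_edgeSet, hed]
      exact hE1 ⟨(i, s(x, y)), ⟨Set.mem_univ _, h⟩, rfl⟩⟩, Γ.emb_inj Z m _⟩
  have := Set.ncard_le_ncard_of_injOn
    (s := (Set.univ : Set (Fin (m / ec Γ.graph))) ×ˢ Γ.graph.cliqueSet s)
    (t := (fromEdgeSet E).cliqueSet s) (fun p => p.2.map (cp p.1).toEmbedding)
    (fun p hp => isNClique_map_copy _ hp.2) (by
      rintro ⟨i, Q⟩ ⟨-, hQ⟩ ⟨j, Q'⟩ ⟨-, hQ'⟩ h
      have h1 : Q.image Γ.ty = Finset.univ := by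
        refine Finset.eq_univ_of_card _ ?_
        rw [Finset.card_image_of_injOn, hQ.card_eq, Fintype.card_fin]
        intro x hx y hy hxy
        by_contra hne
        exact Γ.ty_ne (hQ.isClique hx hy hne) hxy
      obtain ⟨x, hx, hxk⟩ := Finset.mem_image.1 (h1 ▸ Finset.mem_univ k)
      have h' : Q.map (cp i).toEmbedding = Q'.map (cp j).toEmbedding := h
      obtain ⟨y, -, hy⟩ := Finset.mem_map.1 (h' ▸ Finset.mem_map_of_mem _ hx)
      have hy' : Γ.emb Z m (ι j) y = Γ.emb Z m (ι i) x := hy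
      obtain rfl : y = x := congrArg (fun p => p.1.1) hy'
      have h2 := congrArg (fun p => p.1.2) hy'
      simp only [emb, hxk, hk, if_false] at h2
      obtain rfl : j = i := Fin.castLE_injective _ h2
      rw [Finset.map_injective _ h']) (Set.toFinite _)
  rw [Set.ncard_prod, Set.ncard_univ, Nat.card_eq_fintype_card, Fintype.card_fin] at this
  exact this

end Geo

end Pool.Agent.P.MP_80f86c_co.Gen
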