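import Pool.Agent.P.MP_80f86c_co.Gen.Otto
import Pool.Agent.P.MP_80f86c_co.Gen.Geo

/-!
Coset geometries of acyclic groups, and the lower bounds.
-/

namespace Pool.Agent.P.MP_80f86c_co.Gen

open SimpleGraph

variable {s : ℕ}

namespace Otto

variable {Λ A G : Type} [DecidableEq Λ] [Group A] [Group G] {N : ℕ} (O : Otto Λ A G N)

lemma helly3 (hN : 3 ≤ N) {α β γ : Finset Λ} {x y z : G} (h1 : x⁻¹ * y ∈ O.H α)
    (h2 : y⁻¹ * z ∈ O.H β) (h3 : z⁻¹ * x ∈ O.H γ) :
    ∃ w, y⁻¹ * w ∈ O.H (α ∩ β) ∧ z⁻¹ * w ∈ O.H γ := by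
  obtain ⟨i, hi, a, ha, b, hb, hab⟩ := O.acyc 3
    (fun i => if i = 0 then α else if i = 1 then β else γ)
    (fun i => if i = 1 then y else if i = 2 then z else x) le_rfl hN
    (fun i hi => by
      obtain rfl | rfl | rfl : i = 0 ∨ i = 1 ∨ i = 2 := by omega
      · simpa using h1
      · simpa using h2
      · simpa using h3) (by simp)
  obtain rfl : i = 0 := by omega
  simp only [zero_add, if_true, one_ne_zero, if_false, OfNat.ofNat_ne_zero,
    OfNat.ofNat_ne_one] at ha hb hab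
  refine ⟨y * a, by simpa using ha, ?_⟩
  have : z⁻¹ * (y * a) = b⁻¹ := by
    rw [inv_mul_eq_iff_eq_mul.1 hab]; group
  rw [this]
  exact inv_mem ((O.inter _ _ _).1 hb).2

variable [Fintype Λ] (μ : Λ → Finset (Fin s))

/-- generators that fix the type `k` -/
def al (μ : Λ → Finset (Fin s)) (k : Fin s) : Finset Λ := Finset.univ.filter fun l => k ∈ μ l

/-- vertices -/
abbrev V : Type := Σ k : Fin s, G ⧸ O.H (al μ k)

/-- the vertex of type `k` through `g` -/
def vert (g : G) (k : Fin s) : O.V μ := ⟨k, QuotientGroup.mk g⟩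

lemma vert_eq_iff {k : Fin s} {g g' : G} :
    O.vert μ g k = O.vert μ g' k ↔ g⁻¹ * g' ∈ O.H (al μ k) := by
  simp only [vert, Sigma.mk.injEq, heq_eq_eq, true_and]
  exact QuotientGroup.eq

lemma helly (hN : 3 ≤ N) (Q : Finset (O.V μ)) : ∀ (γ : Finset Λ) (g : G),
    (∀ x ∈ Q, ∀ y ∈ Q, x ≠ y → Rel (fun x => x.1) (O.vert μ) x y) →
    (∀ x ∈ Q, ∃ w, g⁻¹ * w ∈ O.H γ ∧ O.vert μ w x.1 = x) →
    ∃ w, g⁻¹ * w ∈ O.H γ ∧ ∀ x ∈ Q, O.vert μ w x.1 = x := by
  classical
  induction Q using Finset.induction_on with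
  | empty => exact fun γ g _ _ => ⟨g, by simp, by simp⟩
  | insert x Q hx ih =>
    intro γ g h1 h2
    obtain ⟨z, hz1, hz2⟩ := h2 x (by simp)
    obtain ⟨w, hw1, hw2⟩ := ih (γ ∩ al μ x.1) z
      (fun a ha b hb => h1 a (by simp [ha]) b (by simp [hb])) (fun y hy => by
        obtain ⟨u, hu1, hu2⟩ := h2 y (by simp [hy])
        obtain ⟨p, hp1, hp2⟩ := h1 x (by simp) y (by simp [hy]) fun h => hx (h ▸ hy)
        obtain ⟨w, a, b⟩ := O.helly3 hN (α := γ) (β := al μ x.1) (γ := al μ y.1) (x := u) (y := z)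
          (z := p) (by simpa using mul_mem (inv_mem hu1) hz1)
          ((O.vert_eq_iff μ).1 (hz2.trans hp1.symm)) ((O.vert_eq_iff μ).1 (hp2.trans hu2.symm))
        exact ⟨w, a, ((O.vert_eq_iff μ).2 b).symm.trans hp2⟩)
    have := (O.inter _ _ _).1 hw1
    refine ⟨w, by simpa using mul_mem hz1 this.1, fun y hy => ?_⟩
    rcases Finset.mem_insert.1 hy with rfl | hy
    · exact ((O.vert_eq_iff μ).2 this.2).symm.trans hz2
    · exact hw2 y hy

/-- the coset geometry -/
def geo (hN : 3 ≤ N) : Geo (Set.range μ) N G (O.V μ) where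
  ty x := x.1
  v := O.vert μ
  ty_v _ _ := rfl
  short := by
    intro m z hm hN' hz hl
    have hY : ∀ p q, Rel (fun x => x.1) (O.vert μ) p q →
        ∃ g, O.vert μ g p.1 = p ∧ O.vert μ g q.1 = q := fun _ _ h => h
    choose! Y hY1 hY2 using hY
    let y : ℕ → G := fun i => if i = 0 ∨ i = m + 1 then Y (z m) (z 0) else Y (z (i - 1)) (z i)
    have hy1 : ∀ i, i ≤ m → O.vert μ (y i) (z i).1 = z i := by
      intro i hi
      rcases i with _ | i
      · simpa [y] using hY2 _ _ hl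
      · simpa [y, show i ≠ m by omega] using hY2 _ _ (hz i (by omega))
    have hy2 : ∀ i, i ≤ m → O.vert μ (y (i + 1)) (z i).1 = z i := by
      intro i hi
      by_cases h1 : i = m
      · subst h1
        simpa [y] using hY1 _ _ hl
      · simpa [y, h1] using hY1 _ _ (hz i (by omega))
    obtain ⟨i, hi, a, ha, b, hb, hab⟩ := O.acyc (m + 1) (fun i => al μ (z i).1) y (by omega) hN'
      (fun i hi => (O.vert_eq_iff μ).1 ((hy1 i (by omega)).trans (hy2 i (by omega)).symm))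
      (by simp [y])
    refine ⟨i, by omega, y (i + 1) * a, ?_, ?_⟩
    · refine ((O.vert_eq_iff μ).2 ?_).symm.trans (hy2 i (by omega))
      rw [inv_mul_cancel_left]
      exact ((O.inter _ _ _).1 ha).1
    · refine ((O.vert_eq_iff μ).2 ?_).symm.trans (hy1 (i + 2) (by omega))
      have : (y (i + 2))⁻¹ * (y (i + 1) * a) = b⁻¹ := by
        rw [inv_mul_eq_iff_eq_mul.1 hab]; group
      rw [this]
      exact inv_mem ((O.inter _ _ _).1 hb).2
  helly Q hQ := by
    obtain ⟨γ, hγ⟩ := O.top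
    obtain ⟨w, -, hw⟩ := O.helly μ hN Q γ 1 hQ fun ⟨k, x⟩ _ => by
      obtain ⟨g, rfl⟩ := QuotientGroup.mk_surjective x
      exact ⟨g, hγ _, rfl⟩
    exact ⟨w, hw⟩
  conn g h := by
    classical
    obtain ⟨γ, hγ⟩ := O.top
    have h1 : ∀ K : Finset (Fin s), (∀ k ∈ K, O.vert μ g k = O.vert μ h k) →
        ∃ δ, g⁻¹ * h ∈ O.H δ ∧ ∀ l ∈ δ, ∀ k ∈ K, k ∈ μ l := by
      intro K
      induction K using Finset.induction_on with
      | empty => exact fun _ => ⟨γ, hγ _, by simp⟩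
      | insert k K _ ih =>
        intro hK
        obtain ⟨δ, a, b⟩ := ih fun j hj => hK j (by simp [hj])
        refine ⟨δ ∩ al μ k, (O.inter _ _ _).2 ⟨a, (O.vert_eq_iff μ).1 (hK k (by simp))⟩,
          fun l hl j hj => ?_⟩
        rcases Finset.mem_insert.1 hj with rfl | hj
        · exact (Finset.mem_filter.1 (Finset.mem_inter.1 hl).2).2
        · exact b l (Finset.mem_inter.1 hl).1 j hj
    obtain ⟨δ, a, b⟩ := h1 (Finset.univ.filter fun k => O.vert μ g k = O.vert μ h k)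
      fun k hk => (Finset.mem_filter.1 hk).2
    have h2 := O.ind δ (fun x => Relation.ReflTransGen (fun a b => ∃ M ∈ Set.range μ,
      (∀ k, O.vert μ g k = O.vert μ h k → k ∈ M) ∧ ∀ k ∈ M, O.vert μ b k = O.vert μ a k)
      g (g * x⁻¹)) (by simpa using Relation.ReflTransGen.refl) (fun l hl c x ih =>
        ih.tail ⟨μ l, ⟨l, rfl⟩, fun k hk => b l hl k (by simpa using hk), fun k hk =>
          (O.vert_eq_iff μ).2 (by simpa using O.mem _ l c (by simpa [al] using hk))⟩)
      _ (inv_mem a)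
    simpa using h2

lemma thick [Finite G] (hN : 3 ≤ N) (hμ : ∀ l, μ l ≠ Finset.univ)
    (hc : ∀ k j, ∃ l, k ∈ μ l ∧ j ∈ μ l) :
    Nat.card A * ec (O.geo μ hN).graph ≤ s * s * kc s (O.geo μ hN).graph := by
  classical
  set X := (O.geo μ hN).graph with hX
  have := Fintype.ofFinite (O.V μ)
  let P : Finset (O.V μ × O.V μ) := Finset.univ.filter fun p => X.Adj p.1 p.2
  have h1 : ec X ≤ P.card := by
    unfold ec
    rw [← SimpleGraph.coe_edgeFinset, Set.ncard_coe_finset]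
    refine Finset.card_le_card_of_surjOn (fun p => s(p.1, p.2)) ?_
    intro e he
    induction e using Sym2.ind with
    | h a b => exact ⟨(a, b), by simpa [P] using he, rfl⟩
  have h4 : kc s X = (X.cliqueFinset s).card := by
    unfold kc
    rw [← coe_cliqueFinset, Set.ncard_coe_finset]
  have hinj : ∀ g, Function.Injective (O.vert μ g) := fun g _ _ h => congrArg Sigma.fst h
  have h2 := Finset.card_mul_le_card_mul (s := P) (t := X.cliqueFinset s)
    (fun p Q => p.1 ∈ Q ∧ p.2 ∈ Q) (m := Nat.card A) (n := s * s) ?_ ?_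
  · rw [h4]
    nlinarith
  · rintro ⟨x, y⟩ hp
    obtain ⟨-, g, a, b⟩ := (Finset.mem_filter.1 hp).2
    obtain ⟨l, hl1, hl2⟩ := hc x.1 y.1
    obtain ⟨j, hj⟩ : ∃ j, j ∉ μ l := by
      by_contra h
      push Not at h
      exact hμ l (Finset.eq_univ_of_forall h)
    rw [← Set.ncard_univ, ← Set.ncard_coe_finset]
    refine Set.ncard_le_ncard_of_injOn (fun c => Finset.univ.image (O.vert μ (g * O.ι l c)))
      (fun c _ => ?_) (fun c _ d _ h => ?_) (Set.toFinite _)
    · have hk : ∀ k ∈ μ l, O.vert μ (g * O.ι l c) k = O.vert μ g k := fun k hk =>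
        ((O.vert_eq_iff μ).2 (by simpa using O.mem _ l c (by simpa [al] using hk))).symm
      refine Finset.mem_coe.2 (Finset.mem_filter.2 ⟨mem_cliqueFinset_iff.2 ⟨?_, ?_⟩,
        Finset.mem_image.2 ⟨x.1, by simp, (hk _ hl1).trans a⟩,
        Finset.mem_image.2 ⟨y.1, by simp, (hk _ hl2).trans b⟩⟩)
      · intro p hp q hq hpq
        obtain ⟨k, -, rfl⟩ := Finset.mem_image.1 hp
        obtain ⟨k', -, rfl⟩ := Finset.mem_image.1 hq
        exact (O.geo μ hN).adj_v _ fun h => hpq (by rw [h])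
      · rw [Finset.card_image_of_injective _ (hinj _)]; simp
    · have h' : Finset.univ.image (O.vert μ (g * O.ι l c)) =
          Finset.univ.image (O.vert μ (g * O.ι l d)) := h
      obtain ⟨k, -, hk⟩ := Finset.mem_image.1
        (h' ▸ Finset.mem_image_of_mem (O.vert μ (g * O.ι l c)) (Finset.mem_univ j))
      obtain rfl : k = j := congrArg Sigma.fst hk
      have := O.π_H l _ (by simpa [al] using hj) _ ((O.vert_eq_iff μ).1 hk)
      rw [mul_inv_rev, mul_assoc, inv_mul_cancel_left, map_mul, map_inv, O.π_self, O.π_self] at this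
      exact (inv_mul_eq_one.1 this).symm
  · intro Q hQ
    have : (Q ×ˢ Q).card = s * s := by
      rw [Finset.card_product, (mem_cliqueFinset_iff.1 hQ).card_eq]
    rw [← this]
    exact Finset.card_le_card fun p hp => Finset.mem_product.2 (Finset.mem_filter.1 hp).2

end Otto

lemma Geo.ec_pos {𝓔 : Set (Finset (Fin s))} {N : ℕ} {C V : Type} [Finite V] (Γ : Geo 𝓔 N C V)
    (hs : 3 ≤ s) : 0 < ec Γ.graph := by
  obtain ⟨g, -⟩ := Γ.helly ∅ (by simp)
  exact (Set.ncard_pos (Set.toFinite _)).2 ⟨s(Γ.v g ⟨0, by omega⟩, Γ.v g ⟨1, by omega⟩),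
    Γ.adj_v g (by simp)⟩

lemma le_two_mul_div {m e : ℕ} (he : 0 < e) (hm : e ≤ m) : m ≤ 2 * e * (m / e) := by
  have h3 : 1 ≤ m / e := (Nat.one_le_div_iff he).2 hm
  have h4 := Nat.div_add_mod m e
  have h5 := Nat.mod_lt m he
  nlinarith

/-- a single chamber -/
def single (s N : ℕ) : Geo (∅ : Set (Finset (Fin s))) N Unit (Fin s) where
  ty := id
  v _ := id
  ty_v _ _ := rfl
  short _ _ hm _ _ _ := ⟨0, hm, (), rfl, rfl⟩
  helly _ _ := ⟨(), fun _ _ => rfl⟩
  conn _ _ := Relation.ReflTransGen.refl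

open Asymptotics Filter

theorem linear_isBigO (hs : 3 ≤ s) {W : Type} [Fintype W] {F : SimpleGraph W}
    (hF : ¬ InSunflowers s F) :
    (fun m : ℕ => (m : ℝ)) =O[atTop] (fun m : ℕ => (mex s m F : ℝ)) := by
  simp only [InSunflowers, not_forall] at hF
  obtain ⟨M, hM, hF⟩ := hF
  let Γ := single s (Fintype.card W + 1)
  have he := Γ.ec_pos hs
  have hk : 1 ≤ kc s Γ.graph := (Set.ncard_pos (Set.toFinite _)).2
    ⟨Finset.univ, fun x _ y _ h => Γ.adj_v () h, by simp⟩
  refine IsBigO.of_bound (2 * ec Γ.graph) ?_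
  filter_upwards [eventually_ge_atTop (ec Γ.graph)] with m hm
  have h1 := Γ.lower hs M (fun _ _ _ _ => rfl) hM
    (fun M' h => ext_mem (𝓜 := {M}) (by simpa using h)) hF le_rfl m
  have h2 := le_two_mul_div he hm
  have h3 : m ≤ 2 * ec Γ.graph * mex s m F :=
    h2.trans (Nat.mul_le_mul_left _ ((Nat.le_mul_of_pos_right _ hk).trans h1))
  simp only [Real.norm_natCast]
  exact_mod_cast h3

theorem linear_isLittleO (hs : 3 ≤ s) {W : Type} [Fintype W] {F : SimpleGraph W}
    (hF : ¬ InPairTrees s F) :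
    (fun m : ℕ => (m : ℝ)) =o[atTop] (fun m : ℕ => (mex s m F : ℝ)) := by
  classical
  simp only [InPairTrees, not_forall] at hF
  obtain ⟨𝓜, hu, hc, hF⟩ := hF
  refine IsLittleO.of_bound fun ε hε => ?_
  obtain ⟨C, hC⟩ := exists_nat_ge (2 * (s * s) / ε)
  have := Fintype.ofFinite 𝓜
  obtain ⟨G, _, _, ⟨O⟩⟩ := exists_otto 𝓜 (Multiplicative (ZMod (C + 1))) (Fintype.card W + 3)
  let Γ := O.geo (s := s) Subtype.val (by omega)
  have he := Γ.ec_pos hs
  have hk := O.thick (s := s) Subtype.val (by omega) (fun l h => hu (h ▸ l.2))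
    fun k j => let ⟨M, a, b⟩ := hc k j; ⟨⟨M, a⟩, b⟩
  rw [show Nat.card (Multiplicative (ZMod (C + 1))) = C + 1 from Nat.card_zmod _] at hk
  obtain ⟨γ, hγ⟩ := O.top
  filter_upwards [eventually_ge_atTop (ec Γ.graph)] with m hm
  have h1 := Γ.lower hs ((Finset.univ.image (Subtype.val : 𝓜 → _)).inf id) (fun g h k hk => by
      refine (O.vert_eq_iff _).2 (O.ind γ (fun x => x ∈ O.H _) (one_mem _)
        (fun l _ a x ih => mul_mem (O.mem _ l a ?_) ih) _ (hγ _))
      simpa [Otto.al] using Finset.mem_inf.1 hk _ (Finset.mem_image_of_mem _ (Finset.mem_univ l)))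
    (fun h => ?_) (fun M h => by
      rcases h with rfl | ⟨l, rfl⟩
      · refine ext_inf _ fun M hM => ?_
        obtain ⟨l, -, rfl⟩ := Finset.mem_image.1 hM
        exact l.2
      · exact ext_mem l.2) hF (by omega) m
  · have h2 := le_two_mul_div he hm
    have h3 : C * m ≤ 2 * (s * s) * mex s m F := by
      calc C * m ≤ (C + 1) * (2 * ec Γ.graph * (m / ec Γ.graph)) :=
            Nat.mul_le_mul (Nat.le_succ _) h2
        _ = 2 * (m / ec Γ.graph * ((C + 1) * ec Γ.graph)) := by ring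
        _ ≤ 2 * (m / ec Γ.graph * (s * s * kc s Γ.graph)) := by gcongr
        _ = 2 * (s * s) * (m / ec Γ.graph * kc s Γ.graph) := by ring
        _ ≤ _ := by gcongr
    have h4 : (C : ℝ) * m ≤ 2 * (s * s) * mex s m F := by exact_mod_cast h3
    simp only [Real.norm_natCast]
    rw [div_le_iff₀ hε] at hC
    have h5 : (0 : ℝ) ≤ m := Nat.cast_nonneg _
    have h6 : (0 : ℝ) < 2 * (s * s) := by
      have : (0 : ℝ) < s := by exact_mod_cast (by omega : 0 < s)
      positivity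
    refine le_of_mul_le_mul_left ?_ h6
    nlinarith
  · obtain ⟨M, hM, -⟩ := hc ⟨0, by omega⟩ ⟨0, by omega⟩
    have := Finset.inf_le (f := id)
      (Finset.mem_image_of_mem Subtype.val (Finset.mem_univ (⟨M, hM⟩ : 𝓜)))
    rw [h] at this
    have h1 : M = Finset.univ := Finset.univ_subset_iff.1 this
    exact hu (h1 ▸ hM)

end Pool.Agent.P.MP_80f86c_co.Gen
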