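import Pool.Agent.P.MP_80f86c_co.Gen.Chain

/-!
Finite groups without short coset cycles, for all subsets of a finite set of generator subgroups.
-/

namespace Pool.Agent.P.MP_80f86c_co.Gen

open Monoid

/-- the free product of copies of `A` -/
abbrev U (Λ A : Type) [Group A] : Type := CoprodI (fun _ : Λ => A)

variable {Λ A : Type} [Group A]

/-- the factor number `l` -/
def gen (l : Λ) : A →* U Λ A := CoprodI.of (M := fun _ : Λ => A) (i := l)

/-- extension of a family of homomorphisms -/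
def lift {G : Type} [Monoid G] (f : Λ → A →* G) : U Λ A →* G :=
  CoprodI.lift (M := fun _ : Λ => A) f

@[simp] lemma lift_gen {G : Type} [Monoid G] (f : Λ → A →* G) (l : Λ) (a : A) :
    lift f (gen l a) = f l a := CoprodI.lift_of (M := fun _ : Λ => A) f a

lemma hom_ext {G : Type} [Monoid G] {f g : U Λ A →* G} (h : ∀ l a, f (gen l a) = g (gen l a)) :
    f = g := CoprodI.ext_hom f g fun l => MonoidHom.ext fun a => h l a

lemma ind {P : U Λ A → Prop} (u : U Λ A) (h1 : P 1) (h2 : ∀ l a u, P u → P (gen l a * u)) : P u :=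
  CoprodI.induction_left u h1 fun {l} a u hu => h2 l a u hu

/-- the intersection of the kernels of all actions on at most `M` points that kill `W` -/
def core (W : Set (U Λ A)) (M : ℕ) : Subgroup (U Λ A) :=
  ⨅ p : {p : Σ m : Fin (M + 1), (U Λ A →* Equiv.Perm (Fin m)) // ∀ w ∈ W, p.2 w = 1}, p.1.2.ker

instance core_normal (W : Set (U Λ A)) (M : ℕ) : (core W M).Normal :=
  Subgroup.normal_iInf_normal fun _ => inferInstance

instance finite_hom [Finite Λ] [Finite A] {G : Type} [Monoid G] [Finite G] :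
    Finite (U Λ A →* G) :=
  have : Finite (A →* G) := DFunLike.finite _
  Finite.of_equiv _ (CoprodI.lift (M := fun _ : Λ => A) (N := G))

instance core_finiteIndex [Finite Λ] [Finite A] (W : Set (U Λ A)) (M : ℕ) :
    (core W M).FiniteIndex :=
  Subgroup.finiteIndex_iInf fun _ => inferInstance

lemma mem_core_of_mem {W : Set (U Λ A)} (M : ℕ) {w : U Λ A} (hw : w ∈ W) : w ∈ core W M :=
  Subgroup.mem_iInf.2 fun p => p.2 w hw

lemma core_map {W : Set (U Λ A)} {M : ℕ} (f : U Λ A →* U Λ A) (hf : ∀ w ∈ W, f w ∈ W)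
    {u : U Λ A} (hu : u ∈ core W M) : f u ∈ core W M :=
  Subgroup.mem_iInf.2 fun p =>
    Subgroup.mem_iInf.1 hu ⟨⟨p.1.1, p.1.2.comp f⟩, fun w hw => p.2 _ (hf w hw)⟩

lemma core_fix {W : Set (U Λ A)} {M : ℕ} {Z : Type} (φ : U Λ A →* Equiv.Perm Z) {S : Set Z}
    (hS : S.Finite) (hM : S.ncard ≤ M) (hinv : ∀ l a, ∀ z ∈ S, φ (gen l a) z ∈ S)
    (hW : ∀ w ∈ W, ∀ z ∈ S, φ w z = z) {u : U Λ A} (hu : u ∈ core W M) : ∀ z ∈ S, φ u z = z := by
  have hinv' : ∀ u, ∀ z ∈ S, φ u z ∈ S := by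
    intro u
    refine ind (P := fun u => ∀ z ∈ S, φ u z ∈ S) u (by simp) ?_
    intro l a u ih z hz
    rw [map_mul]
    exact hinv l a _ (ih z hz)
  have hiff : ∀ u z, φ u z ∈ S ↔ z ∈ S := fun u z =>
    ⟨fun h => by simpa using hinv' u⁻¹ _ h, hinv' u z⟩
  let ψ : U Λ A →* Equiv.Perm S :=
    { toFun := fun u => (φ u).subtypePerm (hiff u)
      map_one' := by ext z; simp
      map_mul' := fun u v => by
        ext z
        show φ (u * v) z = φ u (φ v z)
        rw [map_mul, Equiv.Perm.mul_apply] }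
  have : Finite S := hS
  let e : S ≃ Fin S.ncard := Finite.equivFinOfCardEq (Nat.card_coe_set_eq S)
  let χ : U Λ A →* Equiv.Perm (Fin S.ncard) := e.permCongrHom.toMonoidHom.comp ψ
  have hχ : ∀ w, χ w = 1 ↔ ψ w = 1 := fun w => e.permCongrHom.map_eq_one_iff
  have hW' : ∀ w ∈ W, χ w = 1 := by
    intro w hw
    rw [hχ]
    ext z
    simpa [ψ] using hW w hw z z.2
  have h1 : χ u = 1 :=
    Subgroup.mem_iInf.1 hu ⟨⟨⟨S.ncard, Nat.lt_succ_of_le hM⟩, χ⟩, hW'⟩
  rw [hχ] at h1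
  intro z hz
  have := congrArg (fun σ : Equiv.Perm S => (σ ⟨z, hz⟩ : Z)) h1
  simpa [ψ] using this

variable [DecidableEq Λ]

/-- keep the factors in `γ` -/
def ret (γ : Finset Λ) : U Λ A →* U Λ A := lift fun l => if l ∈ γ then gen l else 1

/-- kill all factors but `m` -/
def proj (m : Λ) : U Λ A →* A := lift fun l => if l = m then MonoidHom.id A else 1

lemma ret_mem {γ : Finset Λ} {l : Λ} (h : l ∈ γ) (a : A) : ret γ (gen l a) = gen l a := by
  simp [ret, h]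

lemma ret_not {γ : Finset Λ} {l : Λ} (h : l ∉ γ) (a : A) : ret γ (gen l a) = 1 := by simp [ret, h]

lemma proj_gen_self (k : Λ) (a : A) : proj k (gen k a) = a := by simp [proj]

lemma proj_gen_ne {k l : Λ} (h : l ≠ k) (a : A) : proj k (gen l a) = 1 := by simp [proj, h]

lemma ret_ret (γ δ : Finset Λ) (u : U Λ A) : ret γ (ret δ u) = ret (γ ∩ δ) u := by
  have : (ret γ).comp (ret δ) = (ret (γ ∩ δ) : U Λ A →* U Λ A) := by
    refine hom_ext fun l a => ?_
    by_cases h : l ∈ γ <;> by_cases h' : l ∈ δ <;> simp [ret, h, h']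
  exact DFunLike.congr_fun this u

lemma proj_ret (k : Λ) (γ : Finset Λ) (u : U Λ A) :
    proj k (ret γ u) = if k ∈ γ then proj k u else 1 := by
  refine ind (P := fun u => proj k (ret γ u) = if k ∈ γ then proj k u else 1) u (by simp) ?_
  intro l a u ih
  rw [map_mul, map_mul, ih, map_mul]
  by_cases h1 : l = k
  · subst h1
    by_cases h : l ∈ γ <;> simp [h, ret_mem, ret_not]
  · by_cases h : l ∈ γ <;> simp [h, ret_mem, ret_not, proj_gen_ne h1]

/-- the subgroup generated by the factors in `γ` -/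
def Hs (γ : Finset Λ) : Subgroup (U Λ A) := (ret γ).range

lemma gen_mem_Hs {γ : Finset Λ} {l : Λ} (h : l ∈ γ) (a : A) : gen l a ∈ Hs γ :=
  ⟨gen l a, ret_mem h a⟩

lemma ret_of_mem {γ : Finset Λ} {u : U Λ A} (h : u ∈ Hs γ) : ret γ u = u := by
  obtain ⟨u, rfl⟩ := h
  rw [ret_ret, Finset.inter_self]

lemma Hs_ind {γ : Finset Λ} {P : U Λ A → Prop} (h1 : P 1)
    (h2 : ∀ l ∈ γ, ∀ a u, P u → P (gen l a * u)) {u : U Λ A} (hu : u ∈ Hs γ) : P u := by
  obtain ⟨u, rfl⟩ := hu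
  refine ind (P := fun u => P (ret γ u)) u (by simpa using h1) fun l a u ih => ?_
  by_cases hl : l ∈ γ
  · rw [map_mul, ret_mem hl]; exact h2 l hl a _ ih
  · rw [map_mul, ret_not hl, one_mul]; exact ih

lemma Hs_mono {γ δ : Finset Λ} (h : γ ⊆ δ) : (Hs γ : Subgroup (U Λ A)) ≤ Hs δ := fun _ hu =>
  Hs_ind (P := fun u => u ∈ Hs δ) (one_mem _)
    (fun _ hl a _ ih => mul_mem (gen_mem_Hs (h hl) a) ih) hu

/-- invariance under all retractions -/
def RetInv (K : Subgroup (U Λ A)) : Prop := ∀ γ, ∀ u ∈ K, ret γ u ∈ K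

/-- images of the standard subgroups -/
def Hq (K : Subgroup (U Λ A)) [K.Normal] (γ : Finset Λ) : Subgroup (U Λ A ⧸ K) :=
  (Hs γ).map (QuotientGroup.mk' K)

lemma Hq_inter {K : Subgroup (U Λ A)} [K.Normal] (hK : RetInv K) (γ δ : Finset Λ) (x) :
    x ∈ Hq K (γ ∩ δ) ↔ x ∈ Hq K γ ∧ x ∈ Hq K δ := by
  refine ⟨fun h => ⟨Subgroup.map_mono (Hs_mono Finset.inter_subset_left) h,
    Subgroup.map_mono (Hs_mono Finset.inter_subset_right) h⟩, ?_⟩
  rintro ⟨⟨a, ha, rfl⟩, b, hb, hab⟩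
  have h1 := hK γ _ (QuotientGroup.eq.1 hab)
  rw [map_mul, map_inv, ret_of_mem ha] at h1
  refine ⟨ret γ b, ⟨b, ?_⟩, QuotientGroup.eq.2 h1⟩
  rw [← ret_ret, ret_of_mem hb]

/-- chains over a quotient -/
def mkChain (K : Subgroup (U Λ A)) [K.Normal] (n : ℕ) (α : ℕ → Finset Λ)
    (S : ℕ → Set (U Λ A ⧸ K)) : Chain Λ A (U Λ A ⧸ K) where
  ι l := (QuotientGroup.mk' K).comp (gen l)
  H := Hq K
  n := n
  α := α
  S := S

lemma rho_Hs {K : Subgroup (U Λ A)} [K.Normal] {n α S} (hc : (mkChain K n α S).Valid) {i : ℕ}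
    (hi : i < n) {w : U Λ A} (hw : w ∈ Hs (α i)) : ∀ y,
    lift (Chain.actHom hc) w ((mkChain K n α S).nu i y)
      = (mkChain K n α S).nu i (y * (QuotientGroup.mk' K w)⁻¹) := by
  refine Hs_ind (P := fun w => ∀ y, lift (Chain.actHom hc) w ((mkChain K n α S).nu i y)
      = (mkChain K n α S).nu i (y * (QuotientGroup.mk' K w)⁻¹)) (by simp) ?_ hw
  intro l hl a u ih y
  rw [map_mul, Equiv.Perm.mul_apply, ih, lift_gen, Chain.actHom_apply, Chain.act_nu hc hi hl,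
    map_mul, mul_inv_rev, mul_assoc]
  rfl

/-- `K` acts trivially on all short chains with small generator sets -/
def Kills (N j : ℕ) (K : Subgroup (U Λ A)) : Prop :=
  ∀ (K₁ : Subgroup (U Λ A)) [K₁.Normal], RetInv K₁ →
    (∀ γ : Finset Λ, γ.card ≤ j → ∀ u ∈ Hs γ, u ∈ K ↔ u ∈ K₁) →
    ∀ n α S (hc : (mkChain K₁ n α S).Valid), n ≤ N → (∀ i, (α i).card ≤ j) →
      ∀ w ∈ K, ∀ p, lift (Chain.actHom hc) w p = p

lemma kills_zero (N : ℕ) (K : Subgroup (U Λ A)) : Kills N 0 K := by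
  intro K₁ _ _ _ n α S hc _ hα w _ p
  refine ind (P := fun w => lift (Chain.actHom hc) w p = p) w (by simp) fun l a u ih => ?_
  rw [map_mul, Equiv.Perm.mul_apply, ih, lift_gen, Chain.actHom_apply]
  refine (Chain.active_or_fixed l p).resolve_left ?_ a
  rintro ⟨i, y, -, hl, -⟩
  have : α i = ∅ := Finset.card_eq_zero.1 (Nat.le_zero.1 (hα i))
  simp [mkChain, this] at hl

/-- the next level -/
noncomputable def next (N j : ℕ) (K : Subgroup (U Λ A)) : Subgroup (U Λ A) :=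
  K ⊓ core {w | w ∈ K ∧ ∃ γ : Finset Λ, γ.card ≤ j ∧ w ∈ Hs γ} (N * Nat.card (U Λ A ⧸ K) + 1)

instance (N j : ℕ) (K : Subgroup (U Λ A)) [K.Normal] : (next N j K).Normal := by
  unfold next; infer_instance

instance [Finite Λ] [Finite A] (N j : ℕ) (K : Subgroup (U Λ A)) [K.FiniteIndex] :
    (next N j K).FiniteIndex := by
  unfold next; infer_instance

lemma next_retInv {N j : ℕ} {K : Subgroup (U Λ A)} (hK : RetInv K) : RetInv (next N j K) := by
  intro γ u hu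
  refine ⟨hK γ u hu.1, core_map _ ?_ hu.2⟩
  rintro w ⟨h1, δ, h2, v, rfl⟩
  exact ⟨hK γ _ h1, γ ∩ δ, (Finset.card_le_card Finset.inter_subset_right).trans h2, v,
    (ret_ret _ _ _).symm⟩

lemma mem_next {N j : ℕ} {K : Subgroup (U Λ A)} {γ : Finset Λ} (h : γ.card ≤ j) {u : U Λ A}
    (hu : u ∈ Hs γ) : u ∈ next N j K ↔ u ∈ K :=
  ⟨fun h => h.1, fun h1 => ⟨h1, mem_core_of_mem _ ⟨h1, γ, h, hu⟩⟩⟩

theorem kills_next {N j : ℕ} {K : Subgroup (U Λ A)} [K.Normal] [K.FiniteIndex]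
    (hK : Kills N j K) : Kills N (j + 1) (next N (j + 1) K) := by
  classical
  intro K₁ _ hK₁ hKK n α S hc hn hα w hw p
  have hKK' : ∀ γ : Finset Λ, γ.card ≤ j + 1 → ∀ u ∈ Hs γ, u ∈ K ↔ u ∈ K₁ :=
    fun γ h u hu => (mem_next h hu).symm.trans (hKK γ h u hu)
  obtain ⟨T, hT, hcard, hpT, hinv⟩ := Chain.exists_small hc (M := Nat.card (U Λ A ⧸ K))
    (fun i _ => by
      let e := (Finite.equivFin (U Λ A ⧸ K)).symm
      refine ⟨fun x => if h : ∃ u ∈ Hs (α i), QuotientGroup.mk' K u = e x then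
        QuotientGroup.mk' K₁ h.choose else 1, ?_⟩
      rintro _ ⟨u, hu, rfl⟩
      refine ⟨e.symm (QuotientGroup.mk' K u), ?_⟩
      have h : ∃ u' ∈ Hs (α i), QuotientGroup.mk' K u' = e (e.symm (QuotientGroup.mk' K u)) :=
        ⟨u, hu, by simp⟩
      simp only [dif_pos h]
      have h1 := h.choose_spec
      exact QuotientGroup.eq.2 ((hKK' _ (hα i) _ (mul_mem (inv_mem h1.1) hu)).1
        (QuotientGroup.eq.1 (h1.2.trans (e.apply_symm_apply _))))) p
  refine core_fix (lift (Chain.actHom hc)) hT (hcard.trans ?_) (by simpa using hinv) ?_ hw.2 p hpT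
  · exact Nat.succ_le_succ (Nat.mul_le_mul_right _ hn)
  rintro w ⟨hwK, β, hβ, hwβ⟩ q -
  by_cases h1 : ∃ i y, i < n ∧ β ⊆ α i ∧ q = (mkChain K₁ n α S).nu i y
  · obtain ⟨i, y, hi, h2, rfl⟩ := h1
    rw [rho_Hs hc hi (Hs_mono h2 hwβ), show QuotientGroup.mk' K₁ w = 1 from
      (QuotientGroup.eq_one_iff w).2 ((hKK' β hβ w hwβ).1 hwK)]
    simp
  by_cases h2 : ∃ i y, i < n ∧ q = (mkChain K₁ n α S).nu i y
  swap
  · refine ind (P := fun w => lift (Chain.actHom hc) w q = q) w (by simp) fun l a u ih => ?_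
    rw [map_mul, Equiv.Perm.mul_apply, ih, lift_gen, Chain.actHom_apply]
    refine (Chain.active_or_fixed l q).resolve_left ?_ a
    rintro ⟨i, y, hi, -, h3⟩
    exact h2 ⟨i, y, hi, h3⟩
  have hs := Chain.sub_valid hc (Hq_inter hK₁) β
  have h3 := hK K₁ hK₁ (fun γ h => hKK' γ (by omega)) n ((mkChain K₁ n α S).sub β).α
    ((mkChain K₁ n α S).sub β).S hs hn (fun i => by
      by_cases h : β ⊆ α i
      · simp [Chain.sub, mkChain, h]
      · have : (α i ∩ β).card < β.card := Finset.card_lt_card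
          ⟨Finset.inter_subset_right, fun h4 => h (h4.trans Finset.inter_subset_left)⟩
        simp only [Chain.sub, mkChain, h, if_false]
        omega) w hwK q
  have h4 : lift (Chain.actHom hc) w q ∈ (mkChain K₁ n α S).T β ∧
      lift (Chain.actHom hs) w q = lift (Chain.actHom hc) w q := by
    refine Hs_ind (P := fun w => lift (Chain.actHom hc) w q ∈ (mkChain K₁ n α S).T β ∧
      lift (Chain.actHom hs) w q = lift (Chain.actHom hc) w q) ⟨⟨h2, h1⟩, by simp⟩ ?_ hwβ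
    intro l hl a u ih
    simp only [map_mul, Equiv.Perm.mul_apply, lift_gen, Chain.actHom_apply, ih.2]
    exact Chain.sub_act hc hs hl a ih.1
  exact h4.2.symm.trans h3

theorem exists_kills [Finite Λ] [Finite A] (N j : ℕ) : ∃ K : Subgroup (U Λ A), K.Normal ∧
    K.FiniteIndex ∧ RetInv K ∧ (∀ m, ∀ u ∈ K, proj m u = 1) ∧ Kills N j K := by
  induction j with
  | zero =>
    refine ⟨⨅ m, (proj m).ker, Subgroup.normal_iInf_normal fun _ => inferInstance,
      Subgroup.finiteIndex_iInf fun _ => inferInstance, fun γ u hu => ?_,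
      fun m u hu => Subgroup.mem_iInf.1 hu m, kills_zero _ _⟩
    refine Subgroup.mem_iInf.2 fun m => ?_
    have : proj m u = 1 := Subgroup.mem_iInf.1 hu m
    rw [MonoidHom.mem_ker, proj_ret, this, ite_self]
  | succ j ih =>
    obtain ⟨K, h1, h2, h3, h4, h5⟩ := ih
    exact ⟨next N (j + 1) K, inferInstance, inferInstance, next_retInv h3,
      fun m u hu => h4 m u hu.1, kills_next h5⟩

/-- a group with generator subgroups and no short coset cycles -/
structure Otto (Λ A G : Type) [DecidableEq Λ] [Group A] [Group G] (N : ℕ) where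
  ι : Λ → A →* G
  H : Finset Λ → Subgroup G
  π : Λ → G →* A
  π_self : ∀ l a, π l (ι l a) = a
  π_H : ∀ l γ, l ∉ γ → ∀ x ∈ H γ, π l x = 1
  mem : ∀ γ l a, l ∈ γ → ι l a ∈ H γ
  top : ∃ γ, ∀ x, x ∈ H γ
  inter : ∀ γ δ x, x ∈ H (γ ∩ δ) ↔ x ∈ H γ ∧ x ∈ H δ
  ind : ∀ γ (P : G → Prop), P 1 → (∀ l ∈ γ, ∀ a x, P x → P (ι l a * x)) → ∀ x ∈ H γ, P x
  acyc : ∀ (n : ℕ) (α : ℕ → Finset Λ) (y : ℕ → G), 3 ≤ n → n ≤ N →
    (∀ i, i < n → (y i)⁻¹ * y (i + 1) ∈ H (α i)) → y n = y 0 →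
    ∃ i, i + 2 < n ∧ ∃ a ∈ H (α i ∩ α (i + 1)), ∃ b ∈ H (α (i + 1) ∩ α (i + 2)),
      (y (i + 1))⁻¹ * y (i + 2) = a * b

theorem exists_otto (Λ A : Type) [Fintype Λ] [DecidableEq Λ] [Group A] [Finite A] (N : ℕ) :
    ∃ (G : Type) (_ : Group G) (_ : Finite G), Nonempty (Otto Λ A G N) := by
  obtain ⟨K, h1, h2, h3, h4, h5⟩ := exists_kills (Λ := Λ) (A := A) N (Fintype.card Λ)
  refine ⟨U Λ A ⧸ K, inferInstance, inferInstance, ⟨⟨fun l => (QuotientGroup.mk' K).comp (gen l),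
    Hq K, fun m => QuotientGroup.lift K (proj m) (h4 m), fun l a => proj_gen_self l a, ?_,
    fun γ l a h => ⟨gen l a, gen_mem_Hs h a, rfl⟩, ⟨Finset.univ, fun x => ?_⟩, Hq_inter h3, ?_,
    ?_⟩⟩⟩
  · rintro l γ hl _ ⟨_, ⟨u, rfl⟩, rfl⟩
    exact (proj_ret l γ u).trans (if_neg hl)
  · obtain ⟨u, rfl⟩ := QuotientGroup.mk_surjective x
    exact ⟨u, ind (P := fun u => u ∈ Hs Finset.univ) u (one_mem _)
      fun l a u ih => mul_mem (gen_mem_Hs (Finset.mem_univ _) a) ih, rfl⟩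
  · rintro γ P p1 p2 _ ⟨u, hu, rfl⟩
    refine Hs_ind (P := fun u => P (QuotientGroup.mk' K u)) (by simpa using p1) ?_ hu
    intro l hl a u ih
    rw [map_mul]
    exact p2 l hl a _ ih
  intro n α y hn3 hn hy hyn
  by_contra hcon
  have hc : (mkChain K n α fun i => {z | (y (i + 1))⁻¹ * z ∈ Hq K (α i ∩ α (i + 1))}).Valid := by
    refine ⟨fun γ l a h => ⟨gen l a, gen_mem_Hs h a, rfl⟩, ?_, ?_, ?_⟩
    · intro i z l a hR l1 l2
      have h0 : QuotientGroup.mk' K (gen l a) ∈ Hq K (α i ∩ α (i + 1)) :=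
        ⟨gen l a, gen_mem_Hs (Finset.mem_inter.2 ⟨l1, l2⟩) a, rfl⟩
      have h00 : (y (i + 1))⁻¹ * z ∈ Hq K (α i ∩ α (i + 1)) := hR.2
      have := mul_mem h00 h0
      rw [mul_assoc] at this
      exact this
    · intro i z h6 h7
      exact hcon ⟨i, h7.1, _, h6.2, _, inv_mem h7.2, by group⟩
    · intro i z z' h6 h7
      have := (Hq_inter h3 _ _ _).1 (Chain.tri h6.2 h7.2 (by simp))
      exact iff_of_true this.1 this.2
  set c := mkChain K n α fun i => {z | (y (i + 1))⁻¹ * z ∈ Hq K (α i ∩ α (i + 1))} with hcdef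
  have hu : ∀ i, ∃ u : U Λ A, i < n →
      u ∈ Hs (α i) ∧ QuotientGroup.mk' K u = (y i)⁻¹ * y (i + 1) := by
    intro i
    by_cases hi : i < n
    · obtain ⟨u, h1, h2⟩ := hy i hi
      exact ⟨u, fun _ => ⟨h1, h2⟩⟩
    · exact ⟨1, fun h => absurd h hi⟩
  choose u hu using hu
  have hstep : ∀ i, i < n → ∃ x : U Λ A, QuotientGroup.mk' K x = (y (i + 1))⁻¹ * y 0 ∧
      lift (Chain.actHom hc) x (0, y 0) = c.nu i (y (i + 1)) := by
    intro i
    induction i with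
    | zero =>
      intro hi
      have h1 : ((0, y 0) : ℕ × (U Λ A ⧸ K)) = c.nu 0 (y 0) := (Chain.nu_of_not (by simp)).symm
      refine ⟨(u 0)⁻¹, by rw [map_inv, (hu 0 hi).2]; group, ?_⟩
      rw [h1, rho_Hs hc hi (inv_mem (hu 0 hi).1), map_inv, (hu 0 hi).2]
      simp [hcdef]
    | succ i ih =>
      intro hi
      obtain ⟨x, hx1, hx2⟩ := ih (by omega)
      have hR : c.R i (y (i + 1)) := ⟨hi, by simp [hcdef, mkChain]⟩
      refine ⟨(u (i + 1))⁻¹ * x, by rw [map_mul, map_inv, (hu _ hi).2, hx1]; group, ?_⟩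
      rw [map_mul, Equiv.Perm.mul_apply, hx2, Chain.nu_of_R hc hR, ← Chain.nu_succ hR,
        rho_Hs hc hi (inv_mem (hu _ hi).1), map_inv, (hu _ hi).2]
      simp [hcdef]
  obtain ⟨m, rfl⟩ : ∃ m, n = m + 1 := ⟨n - 1, by omega⟩
  obtain ⟨x, hx1, hx2⟩ := hstep m (by omega)
  rw [hyn, inv_mul_cancel] at hx1
  rw [h5 K h3 (fun _ _ _ _ => Iff.rfl) _ _ _ hc hn (fun i => Finset.card_le_univ _) x
    ((QuotientGroup.eq_one_iff x).1 hx1)] at hx2
  have := Chain.le_nu_fst (c := c) m (y (m + 1))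
  rw [← hx2] at this
  simp only at this
  omega

end Pool.Agent.P.MP_80f86c_co.Gen
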